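import Pool.Agent.Helper93.IA.Fz

/-! From triangle decompositions to completions of protoplexes. -/

set_option autoImplicit false

namespace Pool.Agent.Helper93.IA

open Finset
open Pool.Agent.Helper92.Proto (IsProtoplex IsLatin Completable)

section

variable {n k : ℕ} (P : Fin n → Fin n → Option (Fin n))

/-- empty cells -/
def pA : Finset (Fin n × Fin n) := univ.filter fun e => P e.1 e.2 = none

open Classical in
/-- column-symbol pairs not yet used -/
noncomputable def pB : Finset (Fin n × Fin n) := univ.filter fun e => ∀ r, P r e.1 ≠ some e.2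

open Classical in
/-- symbol-row pairs not yet used -/
noncomputable def pC : Finset (Fin n × Fin n) := univ.filter fun e => ∀ c, P e.2 c ≠ some e.1

open Classical in
theorem degs (h : IsProtoplex n k P) (i : Fin n) :
    m1 (pA P) univ i = k ∧ m2 (pA P) univ i = k ∧ m1 (pB P) univ i = k ∧ m2 (pB P) univ i = k ∧
      m1 (pC P) univ i = k ∧ m2 (pC P) univ i = k := by
  refine ⟨?_, ?_, ?_, ?_, ?_, ?_⟩
  · unfold m1
    rw [← h.row i]
    congr 1
    ext c
    simp [pA]
  · unfold m2
    rw [← h.col i]
    congr 1
    ext r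
    simp [pA]
  · unfold m1
    rw [← h.col i]
    symm
    refine Finset.card_bij (fun r _ => (P r i).getD i) ?_ ?_ ?_
    · intro r hr
      simp only [mem_filter, mem_univ, true_and] at hr
      obtain ⟨s, hs⟩ := Option.ne_none_iff_exists'.mp hr
      simp only [pB, mem_filter, mem_univ, true_and, not_forall, not_not]
      exact ⟨r, by rw [hs]; rfl⟩
    · intro r hr r' hr' he
      simp only [mem_filter, mem_univ, true_and] at hr hr'
      obtain ⟨s, hs⟩ := Option.ne_none_iff_exists'.mp hr
      obtain ⟨s', hs'⟩ := Option.ne_none_iff_exists'.mp hr'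
      rw [hs, hs'] at he
      simp only [Option.getD_some] at he
      exact h.col_inj r r' i s hs (by rw [hs', he])
    · intro s hs
      simp only [pB, mem_filter, mem_univ, true_and, not_forall, not_not] at hs
      obtain ⟨r, hr⟩ := hs
      refine ⟨r, ?_, ?_⟩
      · simp [hr]
      · rw [hr]; rfl
  · unfold m2
    rw [← h.symbol i]
    symm
    refine Finset.card_bij (fun x _ => x.2) ?_ ?_ ?_
    · intro x hx
      simp only [mem_filter, mem_univ, true_and] at hx
      simp only [pB, mem_filter, mem_univ, true_and, not_forall, not_not]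
      exact ⟨x.1, hx⟩
    · intro x hx x' hx' he
      simp only [mem_filter, mem_univ, true_and] at hx hx'
      have : x.1 = x'.1 := h.col_inj x.1 x'.1 x.2 i hx (by rw [he]; exact hx')
      exact Prod.ext this he
    · intro c hc
      simp only [pB, mem_filter, mem_univ, true_and, not_forall, not_not] at hc
      obtain ⟨r, hr⟩ := hc
      exact ⟨(r, c), by simp [hr], rfl⟩
  · unfold m1
    rw [← h.symbol i]
    symm
    refine Finset.card_bij (fun x _ => x.1) ?_ ?_ ?_
    · intro x hx
      simp only [mem_filter, mem_univ, true_and] at hx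
      simp only [pC, mem_filter, mem_univ, true_and, not_forall, not_not]
      exact ⟨x.2, hx⟩
    · intro x hx x' hx' he
      simp only [mem_filter, mem_univ, true_and] at hx hx'
      have : x.2 = x'.2 := h.row_inj x.1 x.2 x'.2 i hx (by rw [he]; exact hx')
      exact Prod.ext he this
    · intro r hr
      simp only [pC, mem_filter, mem_univ, true_and, not_forall, not_not] at hr
      obtain ⟨c, hc⟩ := hr
      exact ⟨(r, c), by simp [hc], rfl⟩
  · unfold m2
    rw [← h.row i]
    symm
    refine Finset.card_bij (fun c _ => (P i c).getD i) ?_ ?_ ?_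
    · intro c hc
      simp only [mem_filter, mem_univ, true_and] at hc
      obtain ⟨s, hs⟩ := Option.ne_none_iff_exists'.mp hc
      simp only [pC, mem_filter, mem_univ, true_and, not_forall, not_not]
      exact ⟨c, by rw [hs]; rfl⟩
    · intro c hc c' hc' he
      simp only [mem_filter, mem_univ, true_and] at hc hc'
      obtain ⟨s, hs⟩ := Option.ne_none_iff_exists'.mp hc
      obtain ⟨s', hs'⟩ := Option.ne_none_iff_exists'.mp hc'
      rw [hs, hs'] at he
      simp only [Option.getD_some] at he
      exact h.row_inj i c c' s hs (by rw [hs', he])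
    · intro s hs
      simp only [pC, mem_filter, mem_univ, true_and, not_forall, not_not] at hs
      obtain ⟨c, hc⟩ := hs
      refine ⟨c, ?_, ?_⟩
      · simp [hc]
      · rw [hc]; rfl

open Classical in
theorem completable_of_dec (h : IsProtoplex n k P) (hD : Dec (pA P) (pB P) (pC P)) :
    Completable P := by
  obtain ⟨T, hT, hA, hB, hC⟩ := hD
  have hex : ∀ r c, ∃ s, (P r c = some s) ∨ (P r c = none ∧ (r, c, s) ∈ T) := by
    intro r c
    rcases hP : P r c with _ | s
    · have h1 : (r, c) ∈ T.image eA := by
        rw [hA]; simp [pA, hP]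
      obtain ⟨t, ht, he⟩ := Finset.mem_image.mp h1
      refine ⟨t.2.2, Or.inr ⟨rfl, ?_⟩⟩
      have h2 : t.1 = r ∧ t.2.1 = c := Prod.mk.inj he
      obtain ⟨t1, t2, t3⟩ := t
      simp only at h2 ⊢
      rw [← h2.1, ← h2.2]
      exact ht
    · exact ⟨s, Or.inl rfl⟩
  choose L hL using hex
  have hPC : ∀ r c s, (r, c, s) ∈ T → ∀ c', P r c' ≠ some s := by
    intro r c s ht
    have h1 := hT.sC _ ht
    simp only [eC, pC, mem_filter, mem_univ, true_and] at h1
    exact h1
  have hPB : ∀ r c s, (r, c, s) ∈ T → ∀ r', P r' c ≠ some s := by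
    intro r c s ht
    have h1 := hT.sB _ ht
    simp only [eB, pB, mem_filter, mem_univ, true_and] at h1
    exact h1
  refine ⟨L, ⟨?_, ?_⟩, ?_⟩
  · intro r
    refine Finite.injective_iff_bijective.mp ?_
    intro c c' he
    rcases hL r c with h1 | ⟨-, h1⟩ <;> rcases hL r c' with h2 | ⟨-, h2⟩
    · exact h.row_inj r c c' _ h1 (by rw [he]; exact h2)
    · exact absurd (by rw [← he]; exact h1) (hPC r c' _ h2 c)
    · exact absurd (by rw [he]; exact h2) (hPC r c _ h1 c')
    · have h3 := hT.iC _ h1 _ h2 (by simp [eC, he])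
      exact (Prod.mk.inj (Prod.mk.inj h3).2).1
  · intro c
    refine Finite.injective_iff_bijective.mp ?_
    intro r r' he
    simp only at he
    rcases hL r c with h1 | ⟨-, h1⟩ <;> rcases hL r' c with h2 | ⟨-, h2⟩
    · exact h.col_inj r r' c _ h1 (by rw [he]; exact h2)
    · exact absurd (by rw [← he]; exact h1) (hPB r' c _ h2 r)
    · exact absurd (by rw [he]; exact h2) (hPB r c _ h1 r')
    · have h3 := hT.iB _ h1 _ h2 (by simp [eB, he])
      exact (Prod.mk.inj h3).1
  · intro r c s hs
    rcases hL r c with h1 | ⟨h1, -⟩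
    · rw [hs] at h1
      exact (Option.some.inj h1).symm
    · rw [hs] at h1
      cases h1

end

/-- The corollary for protoplexes. -/
theorem completable_of_main (hM : MAINP) :
    ∃ n0 : ℕ, ∀ n k : ℕ, n0 ≤ n → 97 * k ≤ 20 * n → ∀ P : Fin n → Fin n → Option (Fin n),
      IsProtoplex n k P → Completable P := by
  obtain ⟨n0, h0⟩ := hM
  refine ⟨n0, fun n k hn hk P hP => ?_⟩
  exact completable_of_dec P hP (h0 n k hn hk (pA P) (pB P) (pC P) (degs P hP))

end Pool.Agent.Helper93.IA
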