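import Pool.Agent.Helper93.IA.StC

set_option autoImplicit false

namespace Pool.Agent.Helper93.IA

open Finset

theorem hBLA' : StBLA := by
  intro α β γ _ _ _ t A QA LA I C QC LC J U1 U2 U3 hA hC hbal a ha
  have h1 : d1 (A \ I) a = d1 (oi (A \ I) U1 U2) a := by
    unfold d1
    congr 1
    ext e
    simp only [mem_filter, mem_oi]
    constructor
    · rintro ⟨h, he⟩
      refine ⟨⟨h, by rw [he]; exact ha, ?_⟩, he⟩
      by_contra h2
      have h3 : e ∈ oo (A \ I) U1 U2 := mem_oo.mpr ⟨h, by rw [he]; exact ha, h2⟩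
      rw [hA.ooe] at h3
      exact absurd h3 (Finset.notMem_empty _)
    · rintro ⟨⟨h, -, -⟩, he⟩
      exact ⟨h, he⟩
  have h2 : d2 (C \ J) a = d2 (io (C \ J) U3 U1) a := by
    unfold d2
    congr 1
    ext e
    simp only [mem_filter, mem_io]
    constructor
    · rintro ⟨h, he⟩
      refine ⟨⟨h, ?_, by rw [he]; exact ha⟩, he⟩
      by_contra h2
      have h3 : e ∈ oo (C \ J) U3 U1 := mem_oo.mpr ⟨h, h2, by rw [he]; exact ha⟩
      rw [hC.ooe] at h3
      exact absurd h3 (Finset.notMem_empty _)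
    · rintro ⟨⟨h, -, -⟩, he⟩
      exact ⟨h, he⟩
  rw [← h1, ← h2]
  exact hbal a

end Pool.Agent.Helper93.IA
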