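import Pool.Agent.Helper93.IA.DegB
import Pool.Agent.Helper17.IA.StV

/-!
# Project IA, part C (cover down, StCD): the modules, with complete proofs in the docstrings

Useful lemmas: `Pool/Agent/Helper93/IA/DegB.lean` (`mem_ins`, `mem_crs`, `mem_oo`, `mem_oi`, `mem_io`, `mem_hb`,
`d1_eq`, `d2_eq`, `d1_mono`, `d1_union_le`, `Sm.mono`, `Pack.mono`). The names `oo`, `oi`, `io`, `ins`:
an edge is of type `oi` if its first end is outside and its second end inside `U`, etc.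
-/

set_option autoImplicit false

namespace Pool.Agent.Helper93.IA

open Finset
open Pool.Agent.Helper17.IA (StPKU StPKB)

/-- ROT (rotation of a packing). PROOF. `P = P'.image f`, `f (b, c, a) = (a, b, c)`. For
`T' = (b, c, a)`: `eA (f T') = (a, b) = eC T'`, `eB (f T') = (b, c) = eA T'`, `eC (f T') = (c, a) = eB T'`. So the
images agree (`image_image`) and the fields of `Pack A B C P` are those of `Pack B C A P'`
(`sA` from `sC`, `sB` from `sA`, `sC` from `sB`; `iA` from `iC` etc.). -/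
def StROT : Prop :=
  ∀ (α β γ : Type) [DecidableEq α] [DecidableEq β] [DecidableEq γ] (A : Finset (α × β))
    (B : Finset (β × γ)) (C : Finset (γ × α)) (P' : Finset (β × γ × α)), Pack B C A P' →
    ∃ P : Finset (α × β × γ), Pack A B C P ∧ P.image eA = P'.image eC ∧
      P.image eB = P'.image eA ∧ P.image eC = P'.image eB

/-- UN3 (union of three packings with disjoint sets of edges). PROOF. `sA`: each edge lies in one of the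
`A i ⊆ A`. `iA`: if `T ∈ P i`, `T' ∈ P j` and `eA T = eA T'` then this edge lies in `A i ∩ A j`, so `i = j`
(`Finset.disjoint_left`), and the field `iA` of `P i` applies. The same for `B`, `C`. -/
def StUN3 : Prop :=
  ∀ (α β γ : Type) [DecidableEq α] [DecidableEq β] [DecidableEq γ] (A A1 A2 A3 : Finset (α × β))
    (B B1 B2 B3 : Finset (β × γ)) (C C1 C2 C3 : Finset (γ × α)) (P1 P2 P3 : Finset (α × β × γ)),
    Pack A1 B1 C1 P1 → Pack A2 B2 C2 P2 → Pack A3 B3 C3 P3 →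
    (A1 ⊆ A ∧ A2 ⊆ A ∧ A3 ⊆ A) → (B1 ⊆ B ∧ B2 ⊆ B ∧ B3 ⊆ B) → (C1 ⊆ C ∧ C2 ⊆ C ∧ C3 ⊆ C) →
    (Disjoint A1 A2 ∧ Disjoint A1 A3 ∧ Disjoint A2 A3) →
    (Disjoint B1 B2 ∧ Disjoint B1 B3 ∧ Disjoint B2 B3) →
    (Disjoint C1 C2 ∧ Disjoint C1 C3 ∧ Disjoint C2 C3) → Pack A B C (P1 ∪ P2 ∪ P3)

/-- NST (the graph outside the reservoir is nearly regular). PROOF. Put `G = (A \ ins A U1 U2) \ QA`. For a
vertex `a`: `{b | (a,b) ∉ A0} ⊆ {b | (a,b) ∉ G}` as `G ⊆ A ⊆ A0`, so `m1 G univ a ≥ (κ-ε) n ≥ (κ-e) n`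
(`ε ≤ e`). And `{b | (a,b) ∉ G} ⊆ {b | (a,b) ∉ A0} ∪ {b | (a,b) ∈ A0 \ A} ∪ U2 ∪ {b | (a,b) ∈ QA}`: if `(a,b) ∈ A0`,
`(a,b) ∈ A`, `(a,b) ∉ QA`, `(a,b) ∉ G` then `(a,b) ∈ ins A U1 U2`, so `b ∈ U2`. By `d1_eq`
`m1 G univ a ≤ (κ+ε) n + g n + m + 2ρ n ≤ (κ+e) n`. The same for `b ∈ β` with `m2`, `d2_eq`, `U1`. -/
def StNST : Prop :=
  ∀ (α β : Type) [Fintype α] [Fintype β] [DecidableEq α] [DecidableEq β] (κ ε g ξ ρ e : ℝ)
    (n m : ℕ) (A0 A QA : Finset (α × β)) (U1 : Finset α) (U2 : Finset β), A ⊆ A0 →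
    Bi A0 univ univ univ univ ((κ - ε) * n) ((κ + ε) * n) → Sm (A0 \ A) (g * n) →
    U1.card = m → U2.card = m → (m : ℝ) ≤ ξ * n → Sm QA (2 * ρ * n) → 0 ≤ g → 0 ≤ ξ → 0 ≤ ρ →
    ε + g + ξ + 2 * ρ ≤ e →
    Bi ((A \ ins A U1 U2) \ QA) univ univ univ univ ((κ - e) * n) ((κ + e) * n)

/-- SMQ (degrees in the reservoir). PROOF. `d1 QA a`: for `a ∉ U1` by `szA` of the first hypothesis at most
`51/50 ρ (1-κ) m + η n ≤ 51/50 ρ n + ρ/4 n ≤ 2 ρ n`, for `a ∈ U1` by `inA` at most `3/2 ρ n`.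
`d2 QA b`: the same with the fields `szC`, `inC` of the second hypothesis. -/
def StSMQ : Prop :=
  ∀ (α β γ : Type) [Fintype α] [Fintype β] [Fintype γ] [DecidableEq α] [DecidableEq β]
    [DecidableEq γ] (κ ρ η : ℝ) (n m : ℕ) (A QA : Finset (α × β)) (B QB : Finset (β × γ))
    (C QC : Finset (γ × α)) (U1 W1 : Finset α) (U2 W2 : Finset β) (U3 W3 : Finset γ),
    Rsv1 κ ρ η n m A B C QA QB QC U1 U2 W2 U3 W3 → Rsv1 κ ρ η n m B C A QB QC QA U2 U3 W3 U1 W1 →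
    0 ≤ κ → κ ≤ 1 → 0 ≤ ρ → η ≤ ρ / 4 → m ≤ n → Sm QA (2 * ρ * n)

/-- OUT (covering the leftover edges between outer vertices). PROOF. If `O = ∅` take `P = ∅`. Otherwise
let `L e = univ.filter (fun c => (e.2, c) ∈ QB ∧ (c, e.1) ∈ QC)`; for `e ∈ O`
`d1 O e.1 + d2 O e.2 ≤ 2 t ≤ s ≤ |L e|`; as `d1 O e.1 ≥ 1`, `γ` is nonempty. `StLEC` gives
`f : α × β → γ`. `P = O.image (fun e => (e.1, e.2, f e))`. For `T` from `e`: `eA T = e ∈ O`;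
`eB T = (e.2, f e) ∈ QB ⊆ crs B U2 U3` and `e.2 ∉ U2`, so `f e ∈ U3`, it is in `oi QB U2 U3`; `eC T = (f e, e.1)`
lies in `io QC U3 U1`. `iA`: clear. `iB`: `e.2 = e'.2`, `f e = f e'` force `e = e'`. `iC`: `e.1 = e'.1`.
`P.image eA = O`. The edges of `P.image eB` at `b` are the `(b, f e)`, `e ∈ O`, `e.2 = b`: at most
`d2 O b ≤ t` of them (`card_image_le`); the edges `(f e, a)` of `P.image eC` at `a`: at most
`d1 O a ≤ t`. -/
def StOUT : Prop :=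
  StLEC → ∀ (α β γ : Type) [Fintype α] [Fintype β] [Fintype γ] [DecidableEq α] [DecidableEq β]
    [DecidableEq γ] (t s : ℝ) (O : Finset (α × β)) (B QB : Finset (β × γ))
    (C QC : Finset (γ × α)) (U1 : Finset α) (U2 : Finset β) (U3 : Finset γ),
    (∀ e ∈ O, e.1 ∉ U1 ∧ e.2 ∉ U2) → QB ⊆ crs B U2 U3 → QC ⊆ crs C U3 U1 → Sm O t → 2 * t ≤ s →
    (∀ a, a ∉ U1 → ∀ b, b ∉ U2 → s ≤ (univ.filter fun c => (b, c) ∈ QB ∧ (c, a) ∈ QC).card) →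
    ∃ P, Pack O (oi QB U2 U3) (io QC U3 U1) P ∧ P.image eA = O ∧
      (∀ b, (d1 (P.image eB) b : ℝ) ≤ t) ∧ ∀ a, (d2 (P.image eC) a : ℝ) ≤ t

/-- MTA (the matching step). PROOF. `StMAT` with `X = β`, `Y = γ`, `ι = {a // a ∉ U1}`,
`P i = univ.filter (fun b' => (i, b') ∈ S)`, `Q i = univ.filter (fun c => (c, i) ∈ K)`; by `d1_eq`, `d2_eq` their
cardinalities are `d1 S i = d2 K i`; `|{i | x ∈ P i}| ≤ d2 S x ≤ D`, `|{i | y ∈ Q i}| ≤ d1 K y ≤ D`;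
`|ι| ≤ n`, `|X| + |Y| ≤ 2 n`. Let `M` be the function obtained and
`P = univ.filter (fun T => ∃ h : T.1 ∉ U1, (T.1, T.2.1) ∈ S ∧ M ⟨T.1, h⟩ T.2.1 = T.2.2)`. Fields: `sA`: clear,
`sB`: `(b', M a b') ∈ H`, `sC`: `M a b' ∈ Q a`; `iA`: `a`, `b'` determine `c = M a b'`; `iB`: if
`(a,b',c), (a',b',c) ∈ P` with `a ≠ a'` then `M a b' = M a' b'` with `b' ∈ P a ∩ P a'`, excluded; `iC`: `M a`
is injective on `P a`. `P.image eA = S` by construction (edges of `S` have `e.1 ∉ U1`), `P.image eC = K`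
because `M a` maps `P a` onto `Q a`. `d1 (P.image eB) b'`: these edges are `(b', M a b')`, `(a,b') ∈ S`: at most
`d2 S b' ≤ D`. `d2 (P.image eB) c`: at most the number of `T ∈ P` with `T.2.2 = c`, which is at most
`d1 K c` because `eC` is injective on `P`. -/
def StMTA : Prop :=
  StMAT → ∀ (α β γ : Type) [Fintype α] [Fintype β] [Fintype γ] [DecidableEq α] [DecidableEq β]
    [DecidableEq γ] (n : ℕ) (S : Finset (α × β)) (H : Finset (β × γ)) (K : Finset (γ × α))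
    (U1 : Finset α) (t b R D μ : ℕ), Fintype.card α ≤ n → Fintype.card β ≤ n →
    Fintype.card γ ≤ n → 1 ≤ R → (∀ e ∈ S, e.1 ∉ U1) → (∀ e ∈ K, e.2 ∉ U1) →
    (∀ a, a ∉ U1 → d1 S a = d2 K a) → (∀ a, a ∉ U1 → 2 * (t + b + R) ≤ d1 S a) →
    (∀ a, a ∉ U1 → ∀ b', (a, b') ∈ S →
      (univ.filter fun c => (c, a) ∈ K ∧ (b', c) ∉ H).card ≤ t) →
    (∀ a, a ∉ U1 → ∀ c, (c, a) ∈ K →
      (univ.filter fun b' => (a, b') ∈ S ∧ (b', c) ∉ H).card ≤ t) →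
    (∀ a a', a ∉ U1 → a' ∉ U1 → a ≠ a' →
      (univ.filter fun b' => (a, b') ∈ S ∧ (a', b') ∈ S).card ≤ μ) →
    (∀ a a', a ∉ U1 → a' ∉ U1 → a ≠ a' →
      (univ.filter fun c => (c, a) ∈ K ∧ (c, a') ∈ K).card ≤ μ) →
    (∀ b', d2 S b' ≤ D) → (∀ c, d1 K c ≤ D) →
    (n : ℝ) * (2 * n) * (1 + (μ : ℝ) / R) ^ D < 2 ^ b →
    ∃ P, Pack S H K P ∧ P.image eA = S ∧ P.image eC = K ∧ (∀ b', d1 (P.image eB) b' ≤ D) ∧
      ∀ c, d2 (P.image eB) c ≤ D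

/-- The hypotheses on the remaining edges `S` (from outer `a` to inner `b`) and `K` (from inner `c` to
outer `a`): they are in the reservoir or in the leftovers `LA`, `LC` of the approximate decomposition. -/
structure Rem {α β γ : Type} [DecidableEq α] [DecidableEq β] [DecidableEq γ] (t : ℝ)
    (QA LA S : Finset (α × β)) (QC LC K : Finset (γ × α)) (U1 : Finset α) (U2 : Finset β)
    (U3 : Finset γ) : Prop where
  lA : Sm LA t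
  lC : Sm LC t
  inA : ∀ e ∈ S, e ∈ QA ∨ e ∈ LA
  inC : ∀ e ∈ K, e ∈ QC ∨ e ∈ LC
  oS : ∀ e ∈ S, e.1 ∉ U1 ∧ e.2 ∈ U2
  oK : ∀ e ∈ K, e.1 ∈ U3 ∧ e.2 ∉ U1

/-- CN1 (few non-edges in the matching graphs). PROOF. First part: let `(c,a) ∈ K`, `(b,c) ∉ hb B ..`; `c ∈ U3`,
`b ∈ U2`. Then `(b,c) ∉ B` or (`b ∈ W2` and) `c ∈ W3`. So the set is contained in
`{c ∈ U3 | (c,a) ∈ QC ∧ (b,c) ∉ B} ∪ {c ∈ W3 | (c,a) ∈ QC} ∪ {c | (c,a) ∈ LC}`: fields `nbB`, `wC` of `Rsv1` and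
`d2 LC a ≤ g' n` (`d2_eq`). Second part: the same with `nbC`, `wA`, `LA`. -/
def StCN1 : Prop :=
  ∀ (α β γ : Type) [Fintype α] [Fintype β] [Fintype γ] [DecidableEq α] [DecidableEq β]
    [DecidableEq γ] (κ ρ η g' : ℝ) (n m : ℕ) (A QA LA S : Finset (α × β)) (B QB : Finset (β × γ))
    (C QC LC K : Finset (γ × α)) (U1 : Finset α) (U2 W2 : Finset β) (U3 W3 : Finset γ),
    Rsv1 κ ρ η n m A B C QA QB QC U1 U2 W2 U3 W3 → Rem (g' * n) QA LA S QC LC K U1 U2 U3 →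
    (∀ a, a ∉ U1 → ∀ b, (a, b) ∈ S →
      ((univ.filter fun c => (c, a) ∈ K ∧ (b, c) ∉ hb B U2 W2 U3 W3).card : ℝ)
        ≤ 51 / 50 * ρ * κ * m + 2 * ρ * W3.card + 2 * η * n + g' * n) ∧
    ∀ a, a ∉ U1 → ∀ c, (c, a) ∈ K →
      ((univ.filter fun b => (a, b) ∈ S ∧ (b, c) ∉ hb B U2 W2 U3 W3).card : ℝ)
        ≤ 51 / 50 * ρ * κ * m + 2 * ρ * W2.card + 2 * η * n + g' * n

/-- CN2 (small overlaps, small degrees). PROOF. `{b | (a,b) ∈ S ∧ (a',b) ∈ S}` is contained in the union of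
`{b | (a,b) ∈ QA ∧ (a',b) ∈ QA}`, `{b | (a,b) ∈ LA}`, `{b | (a',b) ∈ LA}`: field `cdA` and `d1 LA ≤ g' n`; the same with
`cdC`. `d2 S b`: `0` for `b ∉ U2`; for `b ∈ U2` at most `d2 QA b + d2 LA b`, field `inC` of the second
`Rsv1`. `d1 K c`: `0` for `c ∉ U3`; for `c ∈ U3` at most `d1 QC c + d1 LC c`, field `inA` of the
third `Rsv1`. (`0 ≤ ρ`, `0 ≤ g'` for the zero cases.) -/
def StCN2 : Prop :=
  ∀ (α β γ : Type) [Fintype α] [Fintype β] [Fintype γ] [DecidableEq α] [DecidableEq β]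
    [DecidableEq γ] (κ ρ η g' : ℝ) (n m : ℕ) (A QA LA S : Finset (α × β)) (B QB : Finset (β × γ))
    (C QC LC K : Finset (γ × α)) (U1 W1 : Finset α) (U2 W2 : Finset β) (U3 W3 : Finset γ),
    0 ≤ ρ → 0 ≤ g' → Rsv1 κ ρ η n m A B C QA QB QC U1 U2 W2 U3 W3 →
    Rsv1 κ ρ η n m B C A QB QC QA U2 U3 W3 U1 W1 → Rsv1 κ ρ η n m C A B QC QA QB U3 U1 W1 U2 W2 →
    Rem (g' * n) QA LA S QC LC K U1 U2 U3 →
    (∀ a a', a ∉ U1 → a' ∉ U1 → a ≠ a' →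
      ((univ.filter fun b' => (a, b') ∈ S ∧ (a', b') ∈ S).card : ℝ)
        ≤ 2 * ρ ^ 2 * m + η * n + 2 * (g' * n)) ∧
    (∀ a a', a ∉ U1 → a' ∉ U1 → a ≠ a' →
      ((univ.filter fun c => (c, a) ∈ K ∧ (c, a') ∈ K).card : ℝ)
        ≤ 2 * ρ ^ 2 * m + η * n + 2 * (g' * n)) ∧
    (∀ b', (d2 S b' : ℝ) ≤ 3 / 2 * ρ * n + g' * n) ∧ ∀ c, (d1 K c : ℝ) ≤ 3 / 2 * ρ * n + g' * n

/-- NM2 (the potential is small). PROOF. `μ/R ≤ 90 ρ`, so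
`(1 + μ/R)^D ≤ exp(90 ρ D) ≤ exp(180 ρ^2 n) ≤ exp((18/10^4) ρ ξ n)` (`ρ ≤ ξ/10^5`).
`2^b ≥ 2^(ρ ξ n/60) = exp(log 2 · ρ ξ n / 60) ≥ exp(ρ ξ n/100)` (`b` is at least the real number `ρ ξ n / 60`;
`log 2 > 0.6`). `2 n^2 < exp(ρ ξ n/1000)` for `n ≥ n0`: with `c = ρ ξ/1000`, `exp(c n) ≥ (c n)^3/6` (or use
`Real.tendsto_pow_mul_exp_neg_atTop_nhds_zero`), and `n > 12/c^3`. Since
`1/1000 + 18/10^4 < 1/100`, done. -/
def StNM2 : Prop :=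
  ∀ ξ ρ : ℝ, 0 < ξ → ξ ≤ 1 / 1000 → 0 < ρ → ρ ≤ ξ / 100000 → ∃ n0 : ℕ, ∀ n m b R D μ : ℕ,
    n0 ≤ n → ξ * n / 2 ≤ m → (μ : ℝ) ≤ 3 * ρ ^ 2 * m → ρ * m / 30 ≤ R → ρ * m / 30 ≤ b →
    (D : ℝ) ≤ 2 * ρ * n → (n : ℝ) * (2 * n) * (1 + (μ : ℝ) / R) ^ D < 2 ^ b

/-- NUM (choice of the integers). PROOF. `n0` so large that `ρ^2 ξ n ≥ 10^6` and as in NM2. Then
`m ≥ ξ n - 1 ≥ ξ n/2`, so `ξ n ≤ 2 m` and `η n, g' n ≤ ρ^2 m/500`; `ρ m ≥ ρ^2 m ≥ 10^5`. Put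
`b = R = ⌊ρ m/20⌋₊`, `t = ⌈51/50 ρ κ m + 2 ρ (ξ m) + 2 η n + g' n⌉₊`, `μ = ⌈2 ρ^2 m + η n + 2 (g' n)⌉₊`,
`D = ⌈3/2 ρ n + g' n⌉₊`. Second claim: `2(t+b+R) ≤ 51/25 ρ κ m + 4 ρ ξ m + 4 η n + 2 g' n + 2 + ρ m/5`, and
`49/50 (1-κ) - 51/25 κ - 4 ξ - 1/5 = 39/50 - 151/50 κ - 4ξ ≥ 0.78 - 0.6227 - 0.004 > 0.15` for `κ ≤ 20/97`,
while `5 η n + 3 g' n + 2 ≤ 0.02 ρ m`. `μ ≤ 2 ρ^2 m + 3 ρ^2 m/500 + 1 ≤ 3 ρ^2 m`; `R, b ≥ ρ m/20 - 1 ≥ ρ m/30`;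
`D ≤ 3/2 ρ n + g' n + 1 ≤ 2 ρ n` (`g' ≤ ρ/10`, `ρ n ≥ 10^5`); the last claim is NM2. The claim
`2 (g' n) ≤ ρ^2 m/4`: `≤ ρ^2 m/250`. -/
def StNUM : Prop :=
  StNM2 → ∀ ξ ρ η g' : ℝ, 0 < ξ → ξ ≤ 1 / 1000 → 0 < ρ → ρ ≤ ξ / 100000 → 0 < η →
    η ≤ ρ ^ 2 * ξ / 1000 → 0 < g' → g' ≤ ρ ^ 2 * ξ / 1000 → ∃ n0 : ℕ, ∀ (n m : ℕ) (κ : ℝ),
    n0 ≤ n → m = ⌊ξ * n⌋₊ → 0 ≤ κ → κ ≤ 20 / 97 →
    ξ * n / 2 ≤ m ∧ 2 * (g' * n) ≤ ρ ^ 2 * m / 4 ∧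
    ∃ t b R D μ : ℕ, 1 ≤ R ∧ 51 / 50 * ρ * κ * m + 2 * ρ * (ξ * m) + 2 * η * n + g' * n ≤ t ∧
      (2 * (t + b + R) : ℝ) ≤ 49 / 50 * ρ * (1 - κ) * m - η * n - g' * n ∧
      2 * ρ ^ 2 * m + η * n + 2 * (g' * n) ≤ μ ∧ 3 / 2 * ρ * n + g' * n ≤ D ∧
      (D : ℝ) ≤ 2 * ρ * n ∧ (n : ℝ) * (2 * n) * (1 + (μ : ℝ) / R) ^ D < 2 ^ b

/-- STP (the matching step for the class `α`). PROOF. Take `n0`, then `t b R D μ`, from NUM and apply MTA with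
`H = hb B U2 W2 U3 W3`. Its hypotheses: `2 (t+b+R) ≤ 49/50 ρ (1-κ) m - η n - g' n ≤ d1 QA a - g' n ≤ d1 S a`
(field `szA`); the non-edge counts by CN1 (`W.card ≤ ξ m`, then `≤ t` as real numbers, cast to naturals);
overlaps and degrees by CN2; the last one from NUM. `D ≤ 2 ρ n` gives the degree bound. -/
def StSTP : Prop :=
  StMAT → StMTA → StCN1 → StCN2 → StNM2 → StNUM → ∀ ξ ρ η g' : ℝ, 0 < ξ →
    ξ ≤ 1 / 1000 → 0 < ρ → ρ ≤ ξ / 100000 → 0 < η → η ≤ ρ ^ 2 * ξ / 1000 → 0 < g' →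
    g' ≤ ρ ^ 2 * ξ / 1000 → ∃ n0 : ℕ,
    ∀ (α β γ : Type) [Fintype α] [Fintype β] [Fintype γ] [DecidableEq α] [DecidableEq β]
      [DecidableEq γ] (κ : ℝ) (n m : ℕ) (A QA LA S : Finset (α × β)) (B QB : Finset (β × γ))
      (C QC LC K : Finset (γ × α)) (U1 W1 : Finset α) (U2 W2 : Finset β) (U3 W3 : Finset γ),
      0 ≤ κ → κ ≤ 20 / 97 → n0 ≤ n → m = ⌊ξ * n⌋₊ → Fintype.card α = n → Fintype.card β = n →
      Fintype.card γ = n → (W2.card : ℝ) ≤ ξ * m → (W3.card : ℝ) ≤ ξ * m →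
      Rsv1 κ ρ η n m A B C QA QB QC U1 U2 W2 U3 W3 →
      Rsv1 κ ρ η n m B C A QB QC QA U2 U3 W3 U1 W1 →
      Rsv1 κ ρ η n m C A B QC QA QB U3 U1 W1 U2 W2 →
      Rem (g' * n) QA LA S QC LC K U1 U2 U3 → (∀ a, a ∉ U1 → d1 S a = d2 K a) →
      (∀ a, a ∉ U1 → (d1 QA a : ℝ) - g' * n ≤ d1 S a) →
      ∃ P, Pack S (hb B U2 W2 U3 W3) K P ∧ P.image eA = S ∧ P.image eC = K ∧
        Sm (P.image eB) (2 * ρ * n)

/-- The state after the first two phases for one pair of classes; `I` = covered edges. -/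
structure PhA {α β : Type} [DecidableEq α] [DecidableEq β] (t : ℝ) (A QA LA I : Finset (α × β))
    (U1 : Finset α) (U2 : Finset β) : Prop where
  ooe : oo (A \ I) U1 U2 = ∅
  inn : ins I U1 U2 = ∅
  cov : ∀ e ∈ A \ I, e ∈ ins A U1 U2 ∨ e ∈ QA ∨ e ∈ LA
  low : ∀ a, a ∉ U1 → (d1 QA a : ℝ) - t ≤ d1 (oi (A \ I) U1 U2) a

/-- PHL. `G = (A \ ins A U1 U2) \ QA`, `J` = edges of `G` covered by the approximate decomposition, leftover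
`G \ J`; then the outer-outer leftover edges are covered, with the help of the edges `J1`, `J2` of the
reservoir. PROOF. `ooe`: let `e ∈ A`, outer-outer; `e ∉ QA` (`QA ⊆ crs A U1 U2`), so `e ∈ G`; if `e ∉ J` then
`e ∈ oo (G \ J)`. `inn`: edges of `J ⊆ G` are not inside; the other ones are outer-outer, `io` or `oi`.
`cov`: if `e ∉ ins A U1 U2`, `e ∉ QA` then `e ∈ G`, and `e ∉ J`. `low`: every edge `(a,b) ∈ QA` with `a` outer
is `oi` (`QA ⊆ crs`), is not in `J` (`J ⊆ G`), not in `oo ..`, not in `J1 ⊆ io QA`: it is in `J2` or in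
`oi (A \ I)`. So `d1 QA a ≤ d1 J2 a + d1 (oi (A \ I)) a` (`d1_mono`, `d1_union_le`). -/
def StPHL : Prop :=
  ∀ (α β : Type) [DecidableEq α] [DecidableEq β] (t : ℝ) (A QA J J1 J2 : Finset (α × β))
    (U1 : Finset α) (U2 : Finset β), QA ⊆ crs A U1 U2 → J ⊆ (A \ ins A U1 U2) \ QA →
    J1 ⊆ io QA U1 U2 → J2 ⊆ oi QA U1 U2 → (∀ a, (d1 J2 a : ℝ) ≤ t) →
    PhA t A QA (((A \ ins A U1 U2) \ QA) \ J)
      (J ∪ (oo (((A \ ins A U1 U2) \ QA) \ J) U1 U2 ∪ J1 ∪ J2)) U1 U2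

/-- PH2 (phases one and two together). `GA = (A \ ins A U1 U2) \ QA` etc.; `P1` is the approximate
decomposition. PROOF. `LA = GA \ P1.image eA`, `OA = oo LA U1 U2`, `Sm OA t`; the same for `B`, `C`. OUT with
`s = 2 t` for `O = OA`: `PA`, a packing of `(OA, oi QB U2 U3, io QC U3 U1)` with `PA.image eA = OA`
(hypothesis `cm` gives the number of common neighbours). OUT for the rotated types (`β γ α`, `O = OB`, then
`γ α β`, `O = OC`) and ROT (once, respectively twice) give `PB`, a packing of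
`(io QA U1 U2, OB, oi QC U3 U1)` with `PB.image eB = OB`, and `PC`, a packing of
`(oi QA U1 U2, io QB U2 U3, OC)` with `PC.image eC = OC`, and
`d1 (PC.image eA) a ≤ t`, `d1 (PA.image eB) b ≤ t`, `d1 (PB.image eC) c ≤ t` (the first degree bound of OUT in each
case). UN3 with the target `(LA ∪ QA, LB ∪ QB, LC ∪ QC)`: `P2 = PA ∪ PB ∪ PC` (the three sets of
`A`-edges `OA`, `io QA`, `oi QA` are disjoint by the position of the ends). `LA ∪ QA ⊆ A \ P1.image eA`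
(`P1.image eA ⊆ GA`, disjoint from `QA ⊆ crs A ⊆ A`), so `P = P1 ∪ P2` is a packing of `(A,B,C)` by PKU (1).
`P.image eA = P1.image eA ∪ (OA ∪ PB.image eA ∪ PC.image eA)` (`image_union`), PHL with `J = P1.image eA`,
`J1 = PB.image eA`, `J2 = PC.image eA`; for the type `B`: `P.image eB = P1.image eB ∪ (PA.image eB ∪ OB ∪ PC.image eB)`
(reorder: `J1 = PC.image eB ⊆ io QB`, `J2 = PA.image eB ⊆ oi QB`); for the type `C`:
`J1 = PA.image eC ⊆ io QC`, `J2 = PB.image eC ⊆ oi QC`. -/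
def StPH2 : Prop :=
  StLEC → StOUT → StROT → StUN3 → StPKU → StPHL →
    ∀ (α β γ : Type) [Fintype α] [Fintype β] [Fintype γ] [DecidableEq α] [DecidableEq β]
      [DecidableEq γ] (t : ℝ) (A QA : Finset (α × β)) (B QB : Finset (β × γ))
      (C QC : Finset (γ × α)) (U1 : Finset α) (U2 : Finset β) (U3 : Finset γ)
      (P1 : Finset (α × β × γ)), QA ⊆ crs A U1 U2 → QB ⊆ crs B U2 U3 → QC ⊆ crs C U3 U1 →
      (∀ a, a ∉ U1 → ∀ b, b ∉ U2 →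
        2 * t ≤ (univ.filter fun c => (b, c) ∈ QB ∧ (c, a) ∈ QC).card) →
      (∀ b, b ∉ U2 → ∀ c, c ∉ U3 →
        2 * t ≤ (univ.filter fun a => (c, a) ∈ QC ∧ (a, b) ∈ QA).card) →
      (∀ c, c ∉ U3 → ∀ a, a ∉ U1 →
        2 * t ≤ (univ.filter fun b => (a, b) ∈ QA ∧ (b, c) ∈ QB).card) →
      Pack ((A \ ins A U1 U2) \ QA) ((B \ ins B U2 U3) \ QB) ((C \ ins C U3 U1) \ QC) P1 →
      Sm (((A \ ins A U1 U2) \ QA) \ P1.image eA) t →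
      Sm (((B \ ins B U2 U3) \ QB) \ P1.image eB) t →
      Sm (((C \ ins C U3 U1) \ QC) \ P1.image eC) t →
      ∃ P, Pack A B C P ∧
        PhA t A QA (((A \ ins A U1 U2) \ QA) \ P1.image eA) (P.image eA) U1 U2 ∧
        PhA t B QB (((B \ ins B U2 U3) \ QB) \ P1.image eB) (P.image eB) U2 U3 ∧
        PhA t C QC (((C \ ins C U3 U1) \ QC) \ P1.image eC) (P.image eC) U3 U1

/-- BLA (the remaining edges at an outer vertex are balanced). PROOF. Let `a ∉ U1`. Every edge of `A \ I` at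
`a` has its second end in `U2` (`ooe`), so it is in `oi (A \ I) U1 U2`: `d1 (A \ I) a = d1 (oi (A \ I) ..) a`;
similarly `d2 (C \ J) a = d2 (io (C \ J) U3 U1) a`; and `d1 (A \ I) a = d2 (C \ J) a` by hypothesis. -/
def StBLA : Prop :=
  ∀ (α β γ : Type) [DecidableEq α] [DecidableEq β] [DecidableEq γ] (t : ℝ)
    (A QA LA I : Finset (α × β)) (C QC LC J : Finset (γ × α)) (U1 : Finset α) (U2 : Finset β)
    (U3 : Finset γ), PhA t A QA LA I U1 U2 → PhA t C QC LC J U3 U1 →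
    (∀ a, d1 (A \ I) a = d2 (C \ J) a) →
    ∀ a, a ∉ U1 → d1 (oi (A \ I) U1 U2) a = d2 (io (C \ J) U3 U1) a

/-- FN1 (final bookkeeping for one pair of classes). `I` = edges covered by the first two phases, `J3` = edges
inside `U` used by the matchings. PROOF. (1) an edge `e ∈ A` outside the union: it is in `A \ I`, not
`oi`, not `io`, not outer-outer (`ooe`): inside `U`. (2) an edge of the union inside `W`, so inside `U`: not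
in `I` (`inn`), not `oi`, `io`: in `J3 ⊆ hb A ..`, which excludes the edges inside `W`. (3) in the
same way `ins (..) U1 U2 ⊆ J3`, `Sm.mono`, `2 ρ n ≤ g m`. -/
def StFN1 : Prop :=
  ∀ (α β : Type) [DecidableEq α] [DecidableEq β] (t s : ℝ) (A QA LA I J3 : Finset (α × β))
    (U1 W1 : Finset α) (U2 W2 : Finset β), W1 ⊆ U1 → W2 ⊆ U2 → PhA t A QA LA I U1 U2 →
    J3 ⊆ hb A U1 W1 U2 W2 → Sm J3 s →
    A \ (I ∪ (oi (A \ I) U1 U2 ∪ io (A \ I) U1 U2 ∪ J3)) ⊆ ins A U1 U2 ∧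
    ins (I ∪ (oi (A \ I) U1 U2 ∪ io (A \ I) U1 U2 ∪ J3)) W1 W2 = ∅ ∧
    Sm (ins (I ∪ (oi (A \ I) U1 U2 ∪ io (A \ I) U1 U2 ∪ J3)) U1 U2) s

/-- MT3 (phase three). PROOF. `RA = A \ P.image eA` etc. `Bal RA RB RC` by PKB (1). STP for the class `α` with
`S = oi RA U1 U2`, `K = io RC U3 U1`: `Rem` from `cov` (an `oi` edge is not inside) and the hypotheses `Sm LA`,
`Sm LC`; the balance from BLA; the lower bound is the field `low`. It gives `Pα`, a packing of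
`(oi RA, hb B, io RC)` with `Pα.image eA = oi RA`, `Pα.image eC = io RC`, `Sm (Pα.image eB) (2ρ n)`. STP for
`β` (types `β γ α`, `S = oi RB`, `K = io RA`) and ROT: `Pβ`, a packing of `(io RA, oi RB, hb C)` with
`Pβ.image eA = io RA`, `Pβ.image eB = oi RB`, `Sm (Pβ.image eC)`. STP for `γ` (`S = oi RC`, `K = io RB`) and ROT
twice: `Pγ`, a packing of `(hb A, io RB, oi RC)`, `Pγ.image eB = io RB`, `Pγ.image eC = oi RC`,
`Sm (Pγ.image eA)`. UN3 with the target `(RA, RB, RC)`: `hb A ⊆ RA` by `inn`; disjoint by the position of the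
ends. `P' = Pα ∪ Pβ ∪ Pγ`; the images by `image_union` (`J3` for `A` is `Pγ.image eA`, for `B` it is
`Pα.image eB`, for `C` it is `Pβ.image eC`). The constant `n0` is the one of STP. -/
def StMT3 : Prop :=
  StPKB → StROT → StUN3 → StBLA → StMAT → StMTA → StCN1 → StCN2 → StNM2 → StNUM →
    StSTP → ∀ ξ ρ η g' : ℝ, 0 < ξ →
    ξ ≤ 1 / 1000 → 0 < ρ → ρ ≤ ξ / 100000 → 0 < η → η ≤ ρ ^ 2 * ξ / 1000 → 0 < g' →
    g' ≤ ρ ^ 2 * ξ / 1000 → ∃ n0 : ℕ,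
    ∀ (α β γ : Type) [Fintype α] [Fintype β] [Fintype γ] [DecidableEq α] [DecidableEq β]
      [DecidableEq γ] (κ : ℝ) (n m : ℕ) (A QA LA : Finset (α × β)) (B QB LB : Finset (β × γ))
      (C QC LC : Finset (γ × α)) (U1 W1 : Finset α) (U2 W2 : Finset β) (U3 W3 : Finset γ)
      (P : Finset (α × β × γ)),
      0 ≤ κ → κ ≤ 20 / 97 → n0 ≤ n → m = ⌊ξ * n⌋₊ → Fintype.card α = n → Fintype.card β = n →
      Fintype.card γ = n → (W1.card : ℝ) ≤ ξ * m → (W2.card : ℝ) ≤ ξ * m →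
      (W3.card : ℝ) ≤ ξ * m → Bal A B C →
      Rsv1 κ ρ η n m A B C QA QB QC U1 U2 W2 U3 W3 →
      Rsv1 κ ρ η n m B C A QB QC QA U2 U3 W3 U1 W1 →
      Rsv1 κ ρ η n m C A B QC QA QB U3 U1 W1 U2 W2 →
      Pack A B C P → Sm LA (g' * n) → Sm LB (g' * n) → Sm LC (g' * n) →
      PhA (g' * n) A QA LA (P.image eA) U1 U2 → PhA (g' * n) B QB LB (P.image eB) U2 U3 →
      PhA (g' * n) C QC LC (P.image eC) U3 U1 →
      ∃ (P' : Finset (α × β × γ)) (JA : Finset (α × β)) (JB : Finset (β × γ))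
        (JC : Finset (γ × α)),
        Pack (A \ P.image eA) (B \ P.image eB) (C \ P.image eC) P' ∧
        JA ⊆ hb A U1 W1 U2 W2 ∧ JB ⊆ hb B U2 W2 U3 W3 ∧ JC ⊆ hb C U3 W3 U1 W1 ∧
        Sm JA (2 * ρ * n) ∧ Sm JB (2 * ρ * n) ∧ Sm JC (2 * ρ * n) ∧
        P'.image eA = oi (A \ P.image eA) U1 U2 ∪ io (A \ P.image eA) U1 U2 ∪ JA ∧
        P'.image eB = oi (B \ P.image eB) U2 U3 ∪ io (B \ P.image eB) U2 U3 ∪ JB ∧
        P'.image eC = oi (C \ P.image eC) U3 U1 ∪ io (C \ P.image eC) U3 U1 ∪ JC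

end Pool.Agent.Helper93.IA
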