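import Pool.Agent.Helper93.IA.Cd
import Pool.Agent.Helper93.IA.Bla
import Pool.Agent.Helper9.IAC.M_ROT
import Pool.Agent.Helper29.IAC.M_UN3
import Pool.Agent.Helper22.IAC.M_NST
import Pool.Agent.Helper6.IAC.M_SMQ
import Pool.Agent.Helper97.IAC.M_OUT
import Pool.Agent.Helper78.IAC.M_MTA
import Pool.Agent.Helper30.IAC.M_CN1
import Pool.Agent.Helper94.IAC.M_CN2
import Pool.Agent.Helper51.IAC.M_NM2
import Pool.Agent.Helper42.IAC.M_NUM
import Pool.Agent.Helper80.IAC.M_STP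
import Pool.Agent.Helper67.IAC.M_PHL
import Pool.Agent.Helper34.IAC.M_PH2
import Pool.Agent.Helper89.IAC.M_FN1
import Pool.Agent.Helper40.IAC.M_MT3
import Pool.Agent.Helper54.IA.M_PKB
import Pool.Agent.Helper14.IA.M_PKU

/-! Part C of project IA: `StCD` from all its modules. -/

set_option autoImplicit false

namespace Pool.Agent.Helper93.IA

theorem hCD : StCD :=
  cd Pool.Agent.Helper9.IAC.hROT Pool.Agent.Helper29.IAC.hUN3 Pool.Agent.Helper22.IAC.hNST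
    Pool.Agent.Helper6.IAC.hSMQ Pool.Agent.Helper97.IAC.hOUT Pool.Agent.Helper78.IAC.hMTA
    Pool.Agent.Helper30.IAC.hCN1 Pool.Agent.Helper94.IAC.hCN2 Pool.Agent.Helper51.IAC.hNM2
    Pool.Agent.Helper42.IAC.hNUM Pool.Agent.Helper80.IAC.hSTP Pool.Agent.Helper67.IAC.hPHL
    Pool.Agent.Helper34.IAC.hPH2 hBLA' Pool.Agent.Helper89.IAC.hFN1 Pool.Agent.Helper40.IAC.hMT3
    Pool.Agent.Helper54.IA.hPKB Pool.Agent.Helper14.IA.hPKU

end Pool.Agent.Helper93.IA
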