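import Pool.Agent.Helper93.IA.St0

/-! Elementary lemmas on degrees. -/

set_option autoImplicit false

namespace Pool.Agent.Helper93.IA

open Finset

section

variable {α β γ : Type} [DecidableEq α] [DecidableEq β] [DecidableEq γ]

theorem mem_ins {A : Finset (α × β)} {U1 : Finset α} {U2 : Finset β} {e : α × β} :
    e ∈ ins A U1 U2 ↔ e ∈ A ∧ e.1 ∈ U1 ∧ e.2 ∈ U2 := by
  simp [ins]

theorem mem_crs {A : Finset (α × β)} {U1 : Finset α} {U2 : Finset β} {e : α × β} :
    e ∈ crs A U1 U2 ↔ e ∈ A ∧ ¬ (e.1 ∈ U1 ↔ e.2 ∈ U2) := by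
  simp only [crs, mem_filter]

theorem d1_eq [Fintype β] (X : Finset (α × β)) (a : α) :
    d1 X a = (univ.filter fun b => (a, b) ∈ X).card := by
  unfold d1
  symm
  refine Finset.card_bij (fun b _ => (a, b)) ?_ ?_ ?_
  · intro b hb
    simp only [mem_filter, mem_univ, true_and] at hb ⊢
    exact ⟨hb, trivial⟩
  · intro b _ b' _ h
    exact (Prod.mk.inj h).2
  · intro e he
    simp only [mem_filter] at he
    refine ⟨e.2, ?_, ?_⟩
    · simp only [mem_filter, mem_univ, true_and]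
      rw [← he.2]
      exact he.1
    · rw [← he.2]

theorem d2_eq [Fintype α] (X : Finset (α × β)) (b : β) :
    d2 X b = (univ.filter fun a => (a, b) ∈ X).card := by
  unfold d2
  symm
  refine Finset.card_bij (fun a _ => (a, b)) ?_ ?_ ?_
  · intro a ha
    simp only [mem_filter, mem_univ, true_and] at ha ⊢
    exact ⟨ha, trivial⟩
  · intro a _ a' _ h
    exact (Prod.mk.inj h).1
  · intro e he
    simp only [mem_filter] at he
    refine ⟨e.1, ?_, ?_⟩
    · simp only [mem_filter, mem_univ, true_and]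
      rw [← he.2]
      exact he.1
    · rw [← he.2]

theorem d1_mono {X Y : Finset (α × β)} (h : X ⊆ Y) (a : α) : d1 X a ≤ d1 Y a :=
  Finset.card_le_card (Finset.filter_subset_filter _ h)

theorem d2_mono {X Y : Finset (α × β)} (h : X ⊆ Y) (b : β) : d2 X b ≤ d2 Y b :=
  Finset.card_le_card (Finset.filter_subset_filter _ h)

theorem d1_union_le (X Y : Finset (α × β)) (a : α) : d1 (X ∪ Y) a ≤ d1 X a + d1 Y a := by
  unfold d1
  rw [Finset.filter_union]
  exact Finset.card_union_le _ _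

theorem d2_union_le (X Y : Finset (α × β)) (b : β) : d2 (X ∪ Y) b ≤ d2 X b + d2 Y b := by
  unfold d2
  rw [Finset.filter_union]
  exact Finset.card_union_le _ _

theorem Sm.mono {X Y : Finset (α × β)} {t : ℝ} (h : Sm Y t) (hXY : X ⊆ Y) : Sm X t :=
  ⟨fun a => le_trans (by exact_mod_cast d1_mono hXY a) (h.1 a),
    fun b => le_trans (by exact_mod_cast d2_mono hXY b) (h.2 b)⟩

theorem Pack.mono {A A' : Finset (α × β)} {B B' : Finset (β × γ)} {C C' : Finset (γ × α)}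
    {P : Finset (α × β × γ)} (h : Pack A B C P) (hA : A ⊆ A') (hB : B ⊆ B') (hC : C ⊆ C') :
    Pack A' B' C' P :=
  ⟨fun T hT => hA (h.sA T hT), fun T hT => hB (h.sB T hT), fun T hT => hC (h.sC T hT), h.iA, h.iB,
    h.iC⟩

/-- Outer-outer edges. -/
def oo (A : Finset (α × β)) (U1 : Finset α) (U2 : Finset β) : Finset (α × β) :=
  A.filter fun e => e.1 ∉ U1 ∧ e.2 ∉ U2

/-- Edges with the first end outside and the second end inside. -/
def oi (A : Finset (α × β)) (U1 : Finset α) (U2 : Finset β) : Finset (α × β) :=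
  A.filter fun e => e.1 ∉ U1 ∧ e.2 ∈ U2

/-- Edges with the first end inside and the second end outside. -/
def io (A : Finset (α × β)) (U1 : Finset α) (U2 : Finset β) : Finset (α × β) :=
  A.filter fun e => e.1 ∈ U1 ∧ e.2 ∉ U2

/-- Edges inside `U` but not inside `W`. -/
def hb (A : Finset (α × β)) (U1 W1 : Finset α) (U2 W2 : Finset β) : Finset (α × β) :=
  A.filter fun e => (e.1 ∈ U1 ∧ e.2 ∈ U2) ∧ ¬ (e.1 ∈ W1 ∧ e.2 ∈ W2)

theorem mem_oo {A : Finset (α × β)} {U1 : Finset α} {U2 : Finset β} {e : α × β} :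
    e ∈ oo A U1 U2 ↔ e ∈ A ∧ e.1 ∉ U1 ∧ e.2 ∉ U2 := by
  simp only [oo, mem_filter]

theorem mem_oi {A : Finset (α × β)} {U1 : Finset α} {U2 : Finset β} {e : α × β} :
    e ∈ oi A U1 U2 ↔ e ∈ A ∧ e.1 ∉ U1 ∧ e.2 ∈ U2 := by
  simp only [oi, mem_filter]

theorem mem_io {A : Finset (α × β)} {U1 : Finset α} {U2 : Finset β} {e : α × β} :
    e ∈ io A U1 U2 ↔ e ∈ A ∧ e.1 ∈ U1 ∧ e.2 ∉ U2 := by
  simp only [io, mem_filter]

theorem mem_hb {A : Finset (α × β)} {U1 W1 : Finset α} {U2 W2 : Finset β} {e : α × β} :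
    e ∈ hb A U1 W1 U2 W2 ↔ e ∈ A ∧ (e.1 ∈ U1 ∧ e.2 ∈ U2) ∧ ¬ (e.1 ∈ W1 ∧ e.2 ∈ W2) := by
  simp only [hb, mem_filter]

end

end Pool.Agent.Helper93.IA
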