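import Pool.Agent.Helper93.IA.St0
import Pool.Agent.Helper93.FZ.Fin

/-! `StFZ` (interface of project IA) from project FZ, and the translation of `MAINP` into the language
of protoplexes. -/

set_option autoImplicit false

namespace Pool.Agent.Helper93.IA

open Finset
open Pool.Agent.Helper93.FZ (Psi fracWt)
open Pool.Agent.Helper92.Proto (IsProtoplex IsLatin Completable)

theorem hFZ : StFZ := by
  intro n k A B C u v w hA hB hC rA rC cB cA sC sB uk vk wk hn hk hP
  obtain ⟨x, h1, h2, h3, h4, h5⟩ := fracWt n k A B C u v w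
    ⟨fun i j => (hA i j).1, fun i j => (hB i j).1, fun i j => (hC i j).1, fun i j => (hA i j).2,
      fun i j => (hB i j).2, fun i j => (hC i j).2, rA, rC, cB, cA, sC, sB, uk, vk, wk⟩ hn hk
    (by unfold Psi; linarith)
  have hPs : 0 ≤ Psi n k (∑ r, u r) := by unfold Psi; linarith
  refine ⟨x, ?_, h2, h3, h4, h5⟩
  intro r c s
  refine le_trans ?_ (h1 r c s)
  have hA0 := (hA r c).1
  have hB0 := (hB c s).1
  have hC0 := (hC s r).1
  positivity

end Pool.Agent.Helper93.IA
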