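import Pool.Agent.Helper93.IA.CdAll
import Pool.Agent.Helper93.IA.Pro
import Pool.Agent.Helper17.IA.AsmV
import Pool.Agent.Helper24.IA.All
import Pool.Agent.Helper38.IA.Lec
import Pool.Agent.Helper38.IA.Mat
import Pool.Agent.Helper38.IA.Bln
import Pool.Agent.Helper38.IA.Blx
import Pool.Agent.Helper38.IA.Frn
import Pool.Agent.Helper38.IA.Apx
import Pool.Agent.Helper57.IA.Brn
import Pool.Agent.Helper93.IA.Prob
import Pool.Agent.Helper85.IA.Nib

/-! Project IA: the main theorem. -/

set_option autoImplicit false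

namespace Pool.Agent.Helper93.IA

open Pool.Agent.Helper92.Proto (IsProtoplex Completable)

theorem hMAIN : MAINP :=
  Pool.Agent.Helper17.IA.hFIN
    (hCD Pool.Agent.Helper57.IA.hBRN Pool.Agent.Helper38.IA.hBLX hRSV
      Pool.Agent.Helper38.IA.hLEC Pool.Agent.Helper38.IA.hMAT
      (Pool.Agent.Helper38.IA.hAPX Pool.Agent.Helper85.IA.hNIB hFZ Pool.Agent.Helper38.IA.hBLN
        Pool.Agent.Helper38.IA.hFRN))
    Pool.Agent.Helper24.IA.hABS hSUB Pool.Agent.Helper17.IA.hVOR
    Pool.Agent.Helper17.IA.hITR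

theorem completable_large :
    ∃ n0 : ℕ, ∀ n k : ℕ, n0 ≤ n → 97 * k ≤ 20 * n → ∀ P : Fin n → Fin n → Option (Fin n),
      IsProtoplex n k P → Completable P :=
  completable_of_main hMAIN

end Pool.Agent.Helper93.IA
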