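import Mathlib

/-!
# Project IA: triangle decompositions of regular tripartite graphs, by iterative absorption

Target `StMAIN`: for large `n` and `97 k ≤ 20 n`, every tripartite graph with classes of size `n` in which
every vertex misses exactly `k` vertices of each other class has a triangle decomposition.

Cyclic convention. Three vertex classes (types) `α`, `β`, `γ`; edge sets `A ⊆ α × β`, `B ⊆ β × γ`,
`C ⊆ γ × α`; triangles are triples `(a, b, c)`. Every statement has a rotated version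
`(α, β, γ; A, B, C) → (β, γ, α; B, C, A)`.

Order of the constants in the cover down step (CD): `κ ≤ 20/97` is given (it varies with the graph);
`εF` (from APX) → `ξ` (ratio of consecutive levels, `ξ ≤ εF / 20`, `ξ ≤ 1/1000`) → `γ` (`≤ ξ / 1000`)
→ `ρ = γ ξ / 8` (density of the reservoir; also `≤ ξ / 10^5`) → `g = ρ^2 ξ / 1000` (leftover of the nibble)
→ `b0` (APX) → `η` (`≤ b0 / 10`, `≤ ρ^2 ξ / 1000`) → `ε` (RSV) → `n0`.
-/

set_option autoImplicit false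

namespace Pool.Agent.Helper93.IA

open Finset

section Defs

variable {α β γ : Type}

def eA (T : α × β × γ) : α × β := (T.1, T.2.1)

def eB (T : α × β × γ) : β × γ := (T.2.1, T.2.2)

def eC (T : α × β × γ) : γ × α := (T.2.2, T.1)

/-- `P` is a set of edge-disjoint triangles of the graph `(A, B, C)`. -/
structure Pack (A : Finset (α × β)) (B : Finset (β × γ)) (C : Finset (γ × α))
    (P : Finset (α × β × γ)) : Prop where
  sA : ∀ T ∈ P, eA T ∈ A
  sB : ∀ T ∈ P, eB T ∈ B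
  sC : ∀ T ∈ P, eC T ∈ C
  iA : ∀ T ∈ P, ∀ T' ∈ P, eA T = eA T' → T = T'
  iB : ∀ T ∈ P, ∀ T' ∈ P, eB T = eB T' → T = T'
  iC : ∀ T ∈ P, ∀ T' ∈ P, eC T = eC T' → T = T'

variable [DecidableEq α] [DecidableEq β] [DecidableEq γ]

/-- `(A, B, C)` has a triangle decomposition. -/
def Dec (A : Finset (α × β)) (B : Finset (β × γ)) (C : Finset (γ × α)) : Prop :=
  ∃ P : Finset (α × β × γ), Pack A B C P ∧ P.image eA = A ∧ P.image eB = B ∧ P.image eC = C

def d1 (A : Finset (α × β)) (a : α) : ℕ := (A.filter fun e => e.1 = a).card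

def d2 (A : Finset (α × β)) (b : β) : ℕ := (A.filter fun e => e.2 = b).card

/-- Locally balanced. -/
def Bal (A : Finset (α × β)) (B : Finset (β × γ)) (C : Finset (γ × α)) : Prop :=
  (∀ a, d1 A a = d2 C a) ∧ (∀ b, d1 B b = d2 A b) ∧ ∀ c, d1 C c = d2 B c

/-- All the degrees of `A` are at most `t`. -/
def Sm (A : Finset (α × β)) (t : ℝ) : Prop := (∀ a, (d1 A a : ℝ) ≤ t) ∧ ∀ b, (d2 A b : ℝ) ≤ t

/-- Imbalance at most `t` at every vertex. -/
def Imb (A : Finset (α × β)) (B : Finset (β × γ)) (C : Finset (γ × α)) (t : ℝ) : Prop :=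
  (∀ a, |(d1 A a : ℝ) - d2 C a| ≤ t) ∧ (∀ b, |(d1 B b : ℝ) - d2 A b| ≤ t) ∧
    ∀ c, |(d1 C c : ℝ) - d2 B c| ≤ t

/-- Number of non-neighbours of `a` in `V ⊆ β`. -/
def m1 (A : Finset (α × β)) (V : Finset β) (a : α) : ℕ := (V.filter fun b => (a, b) ∉ A).card

/-- Number of non-neighbours of `b` in `V ⊆ α`. -/
def m2 (A : Finset (α × β)) (V : Finset α) (b : β) : ℕ := (V.filter fun a => (a, b) ∉ A).card

/-- Every vertex of `V1` misses between `lo` and `hi` vertices of `U2`, every vertex of `V2` misses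
between `lo` and `hi` vertices of `U1`. -/
def Bi (A : Finset (α × β)) (V1 : Finset α) (V2 : Finset β) (U1 : Finset α) (U2 : Finset β)
    (lo hi : ℝ) : Prop :=
  (∀ a ∈ V1, lo ≤ m1 A U2 a ∧ (m1 A U2 a : ℝ) ≤ hi) ∧
    ∀ b ∈ V2, lo ≤ m2 A U1 b ∧ (m2 A U1 b : ℝ) ≤ hi

def Near (A : Finset (α × β)) (B : Finset (β × γ)) (C : Finset (γ × α)) (V1 : Finset α)
    (V2 : Finset β) (V3 : Finset γ) (U1 : Finset α) (U2 : Finset β) (U3 : Finset γ) (lo hi : ℝ) :
    Prop :=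
  Bi A V1 V2 U1 U2 lo hi ∧ Bi B V2 V3 U2 U3 lo hi ∧ Bi C V3 V1 U3 U1 lo hi

/-- Edges with both ends in `U`. -/
def ins (A : Finset (α × β)) (U1 : Finset α) (U2 : Finset β) : Finset (α × β) :=
  A.filter fun e => e.1 ∈ U1 ∧ e.2 ∈ U2

/-- Edges with exactly one end in `U`. -/
def crs (A : Finset (α × β)) (U1 : Finset α) (U2 : Finset β) : Finset (α × β) :=
  A.filter fun e => ¬ (e.1 ∈ U1 ↔ e.2 ∈ U2)

end Defs

/-! ## Part N: the nibble -/

/-- NIB (nibble with control of the maximal degree of the leftover).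

ONE ROUND. Data: graph `(A,B,C)`, `x ≥ 0` supported on its triangles, `x ≤ Λ/n`, every edge sum
`S_e = ∑_{T ∋ e} x(T)` in `[1-δ, 1]` (`e` an edge of the graph). Independently for every pair `(a,b)` choose
`σ(a,b) ∈ Option γ`: `some c` with probability `x a b c`, `none` with the remaining probability.
`(a,b,c)` is USED if `σ(a,b) = some c`, `σ(a,b') ≠ some c` for `b' ≠ b`, `σ(a',b) ≠ some c` for `a' ≠ a`.
The used triples are edge-disjoint triangles (when all the chosen `c` have `x a b c > 0`).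
(1) `P(used(a,b,c)) = x(abc) ∏_{b'≠b} (1 - x(ab'c)) ∏_{a'≠a} (1 - x(a'bc))`, which is
`x(abc) e^{-2} (1 + O(δ + 1/n))` (use `e^{-x-x^2} ≤ 1-x ≤ e^{-x}`). Put `p = e^{-2}`, `q = 1 - p`.
(2) For fixed `(a,b)` [`(c,a)`, `(b,c)`] at most one triple through it is used, so
`P(e covered) = ∑_{T∋e} P(T used) = p + O(δ + 1/n)`.
(3) joint probabilities. For `b' ≠ b`, `a' ≠ a`:
`P(used(a,b',c) ∧ used(a',b,c)) = U(ab'c) U(a'bc) / ((1-x(abc)) (1-x(a'b'c)))`, `U` the probability in (1)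
(the pairs `(a,b)` and `(a',b')` are counted twice in the product). For `c' ≠ c`, `a' ≠ a`:
`P(used(a,b,c') ∧ used(a',b,c)) = U(abc') U(a'bc) * ∏_{a''≠a,a'} (1-y-z)/((1-y)(1-z)) /
((1-x(a'bc')) (1-x(abc)))`, `y = x(a''bc)`, `z = x(a''bc')`; and the same with `α`, `β` exchanged.
Hence for a triangle `T` with edges `e, e', e''`, `P(e', e'' both covered) = p^2 + O(δ + 1/n)` (both by `T`:
at most `x(T) = O(1/n)`).
(4) So `S'_e := ∑_{T∋e} x(T) 1[the other two edges of T uncovered]` has mean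
`S_e (q^2 + O(δ+1/n))`, and the number `D'` of uncovered edges of one type at a vertex with `D` of
them has mean `D (q + O(δ+1/n))`.
(5) concentration by BRN (part P). If only the coordinate `(a0,b0)` changes, from `u` to `u'`, at most 6
triples change their status, all with third entry in `{u,u'}` and with `a = a0` or `b = b0` (for
each of the values `u`: `(a0,b0,u)`, at most one `(a0,b,u)` and at most one `(a,b0,u)`). For the statistic
`f = S'_{(a,b)}` (sum over `c`) only the terms `c ∈ {u,u'}` change: oscillation `≤ 2Λ/n`; with the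
reference value `none`, if `a0 ≠ a` and `b0 ≠ b` the value changes only if `u = σ(a,b0)` or `u = σ(a0,b)`:
variance of the coordinate `≤ 2 (Λ/n)^3`; if `a0 = a` or `b0 = b` at most `(Λ/n)^2`: total
`V ≤ (2Λ^3 + 2Λ^2)/n`. For `f = S'_{(c,a)}` (sum over `b`): `covA(a,b)` changes for at most 4 values of `b` if
`a0 = a`, otherwise only for `b = b0` and only if `u` or `u'` is `σ(a,b0)`; `covB(b,c)` changes only if `u`
or `u'` is `c`, for at most 4 values `b`: oscillation `O(Λ/n)`, `V = O((Λ+1)^3/n)`. Degrees: the same with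
weights 1: oscillation `O(1)`, `V = O((Λ+1) n)`. So with probability `> 0` all the `O(n^2)` statistics deviate
by at most `η` (sums) resp. `η n` (degrees), for any fixed `η > 0` and `n ≥ n0(Λ,η)`.
(6) New data: `x'(T) = x(T) 1[T has no covered edge] / (q^2 + K(δ+1/n) + η)`; sums in `[1-δ',1]`,
`δ' = K'(δ + η + 1/n)`, `Λ' = Λ/q^2`; new degrees `≤ (q + K(δ+1/n)) D + η n`.

ITERATE `t` rounds with `q^t ≤ g/2`, constants `δ, η, 1/n` small enough for `t`, `Λ`: final degrees `≤ g n`. -/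
def StNIB : Prop :=
  ∀ Λ g : ℝ, 0 < Λ → 0 < g → ∃ (δ : ℝ) (n0 : ℕ), 0 < δ ∧
    ∀ (α β γ : Type) [Fintype α] [Fintype β] [Fintype γ] [DecidableEq α] [DecidableEq β]
      [DecidableEq γ] (n : ℕ), n0 ≤ n → Fintype.card α = n → Fintype.card β = n →
      Fintype.card γ = n → ∀ (A : Finset (α × β)) (B : Finset (β × γ)) (C : Finset (γ × α))
      (x : α → β → γ → ℝ), (∀ a b c, 0 ≤ x a b c) → (∀ a b c, x a b c ≤ Λ / n) →
      (∀ a b c, x a b c ≠ 0 → (a, b) ∈ A ∧ (b, c) ∈ B ∧ (c, a) ∈ C) →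
      (∀ a b, (a, b) ∈ A → 1 - δ ≤ ∑ c, x a b c) → (∀ a b, ∑ c, x a b c ≤ 1) →
      (∀ b c, (b, c) ∈ B → 1 - δ ≤ ∑ a, x a b c) → (∀ b c, ∑ a, x a b c ≤ 1) →
      (∀ c a, (c, a) ∈ C → 1 - δ ≤ ∑ b, x a b c) → (∀ c a, ∑ b, x a b c ≤ 1) →
      ∃ P, Pack A B C P ∧ Sm (A \ P.image eA) (g * n) ∧ Sm (B \ P.image eB) (g * n) ∧
        Sm (C \ P.image eC) (g * n)

/-! ## Part P: probability -/

/-- Expectation in a finite product space: the coordinate `i` takes the value `u` with probability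
`w i u`. -/
def Ex {ι : Type} [Fintype ι] [DecidableEq ι] {κ : ι → Type} [∀ i, Fintype (κ i)]
    (w : ∀ i, κ i → ℝ) (f : (∀ i, κ i) → ℝ) : ℝ :=
  ∑ σ : (∀ i, κ i), (∏ i, w i (σ i)) * f σ

/-- BRN (Bernstein / McDiarmid inequality in product spaces). For `0 ≤ l`, `l * c ≤ 1`:
`Ex (exp (l (f - Ex f))) ≤ exp (l^2 ∑ v i)`, and then Markov: the probability of `f ≥ Ex f + t` is at
most `exp (-l t + l^2 ∑ v)`. PROOF: average the coordinates one after the other. Let `Av i f σ =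
∑_u w i u * f (update σ i u)`. For one coordinate: with `g = f - Av i f` (as a function of the
coordinate `i`) `|l g| ≤ 1`, `exp y ≤ 1 + y + y^2` for `|y| ≤ 1`, `Av i g = 0`,
`Av i (g^2) ≤ Av i ((f - m)^2) ≤ v i`: `Av i (exp (l g)) ≤ 1 + l^2 v i ≤ exp (l^2 v i)`. The
hypotheses (oscillation `c`, variance `v j` for every `j`) pass from `f` to `Av i f` (for the
variance: the variance of an average is at most the average of the variances; state the
hypothesis `hv` in the form `variance ≤ v i`, i.e. `Av i (f^2) - (Av i f)^2 ≤ v i`, which follows from the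
given one). Induction over a list of the coordinates: if `g` does not depend on the coordinates of the
list `L`, `Av_L (F * g) = g * Av_L F`. -/
def StBRN : Prop :=
  ∀ (ι : Type) [Fintype ι] [DecidableEq ι] (κ : ι → Type) [∀ i, Fintype (κ i)]
    [∀ i, DecidableEq (κ i)] (w : ∀ i, κ i → ℝ) (f : (∀ i, κ i) → ℝ) (c t l : ℝ) (v : ι → ℝ),
    (∀ i u, 0 ≤ w i u) → (∀ i, ∑ u, w i u = 1) →
    (∀ i σ u u', |f (Function.update σ i u) - f (Function.update σ i u')| ≤ c) →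
    (∀ i σ, ∃ m : ℝ, ∑ u, w i u * (f (Function.update σ i u) - m) ^ 2 ≤ v i) →
    0 ≤ l → l * c ≤ 1 →
    Ex w (fun σ => if Ex w f + t ≤ f σ then 1 else 0) ≤ Real.exp (-l * t + l ^ 2 * ∑ i, v i)

/-- SUB (random subset). Choose every element of `V` with probability `ξ` independently; for the sets
`F j` (at most `4n` of them) and for `V` itself BRN (`c = 1`, `v = 1` each, `∑ v = n`,
`t = m^(2/3)/4`, `l = t/(2n)`, `m = ⌊ξ n⌋`) gives `| |F j ∩ U0| - ξ |F j| | ≤ t` for all `j` and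
`| |U0| - ξ n | ≤ t` with positive probability when `n ≥ n0(ξ)` (`(4n+1) * 2 * exp (-t^2/(4n)) < 1`). Add
or remove at most `t + 1` elements to get `|U| = m`; `|ξ |F j| - |F j| m / n| ≤ 1`;
`2t + 2 ≤ m^(2/3)`. -/
def StSUB : Prop :=
  ∀ ξ : ℝ, 0 < ξ → ξ ≤ 1 / 2 → ∃ n0 : ℕ, ∀ (V ι : Type) [Fintype V] [DecidableEq V] [Fintype ι]
    (n : ℕ), n0 ≤ n → Fintype.card V = n → Fintype.card ι ≤ 4 * n → ∀ F : ι → Finset V,
    ∃ U : Finset V, U.card = ⌊ξ * n⌋₊ ∧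
      ∀ j, |((F j ∩ U).card : ℝ) - (F j).card * U.card / n| ≤ (U.card : ℝ) ^ ((2 : ℝ) / 3)

/-- The situation at one level. `(A0,B0,C0)` is the reference graph, `(A,B,C)` the current graph, `U` the
next level, `W` the level after it (or empty). -/
structure Lv {α β γ : Type} [Fintype α] [Fintype β] [Fintype γ] [DecidableEq α] [DecidableEq β]
    [DecidableEq γ] (κ ε g ξ : ℝ) (n m : ℕ) (A0 A : Finset (α × β)) (B0 B : Finset (β × γ))
    (C0 C : Finset (γ × α)) (U1 W1 : Finset α) (U2 W2 : Finset β) (U3 W3 : Finset γ) : Prop where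
  nα : Fintype.card α = n
  nβ : Fintype.card β = n
  nγ : Fintype.card γ = n
  hm : m = ⌊ξ * n⌋₊
  c1 : U1.card = m
  c2 : U2.card = m
  c3 : U3.card = m
  w1 : W1 ⊆ U1
  w2 : W2 ⊆ U2
  w3 : W3 ⊆ U3
  cw1 : (W1.card : ℝ) ≤ ξ * m
  cw2 : (W2.card : ℝ) ≤ ξ * m
  cw3 : (W3.card : ℝ) ≤ ξ * m
  sA : A ⊆ A0
  sB : B ⊆ B0
  sC : C ⊆ C0
  near : Near A0 B0 C0 univ univ univ univ univ univ ((κ - ε) * n) ((κ + ε) * n)
  nearU : Near A0 B0 C0 univ univ univ U1 U2 U3 ((κ - ε) * m) ((κ + ε) * m)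
  smA : Sm (A0 \ A) (g * n)
  smB : Sm (B0 \ B) (g * n)
  smC : Sm (C0 \ C) (g * n)
  agA : ins A U1 U2 = ins A0 U1 U2
  agB : ins B U2 U3 = ins B0 U2 U3
  agC : ins C U3 U1 = ins C0 U3 U1
  bal : Bal A B C

/-- The properties of a reservoir seen from the class `α`; the full list is this one and its two
rotations. -/
structure Rsv1 {α β γ : Type} [Fintype α] [Fintype β] [Fintype γ] [DecidableEq α] [DecidableEq β]
    [DecidableEq γ] (κ ρ η : ℝ) (n m : ℕ) (A : Finset (α × β)) (B : Finset (β × γ))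
    (C : Finset (γ × α)) (QA : Finset (α × β)) (QB : Finset (β × γ)) (QC : Finset (γ × α))
    (U1 : Finset α) (U2 W2 : Finset β) (U3 W3 : Finset γ) : Prop where
  sub : QA ⊆ crs A U1 U2
  szA : ∀ a, a ∉ U1 → 49 / 50 * ρ * (1 - κ) * m - η * n ≤ d1 QA a ∧
    (d1 QA a : ℝ) ≤ 51 / 50 * ρ * (1 - κ) * m + η * n
  szC : ∀ a, a ∉ U1 → 49 / 50 * ρ * (1 - κ) * m - η * n ≤ d2 QC a ∧
    (d2 QC a : ℝ) ≤ 51 / 50 * ρ * (1 - κ) * m + η * n
  inA : ∀ a ∈ U1, (d1 QA a : ℝ) ≤ 3 / 2 * ρ * n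
  inC : ∀ a ∈ U1, (d2 QC a : ℝ) ≤ 3 / 2 * ρ * n
  nbB : ∀ a, a ∉ U1 → ∀ b ∈ U2, ((U3.filter fun c => (c, a) ∈ QC ∧ (b, c) ∉ B).card : ℝ)
    ≤ 51 / 50 * ρ * κ * m + η * n
  nbC : ∀ a, a ∉ U1 → ∀ c ∈ U3, ((U2.filter fun b => (a, b) ∈ QA ∧ (b, c) ∉ B).card : ℝ)
    ≤ 51 / 50 * ρ * κ * m + η * n
  wA : ∀ a, a ∉ U1 → ((W2.filter fun b => (a, b) ∈ QA).card : ℝ) ≤ 2 * ρ * W2.card + η * n
  wC : ∀ a, a ∉ U1 → ((W3.filter fun c => (c, a) ∈ QC).card : ℝ) ≤ 2 * ρ * W3.card + η * n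
  cdA : ∀ a a', a ∉ U1 → a' ∉ U1 → a ≠ a' →
    ((univ.filter fun b => (a, b) ∈ QA ∧ (a', b) ∈ QA).card : ℝ) ≤ 2 * ρ ^ 2 * m + η * n
  cdC : ∀ a a', a ∉ U1 → a' ∉ U1 → a ≠ a' →
    ((univ.filter fun c => (c, a) ∈ QC ∧ (c, a') ∈ QC).card : ℝ) ≤ 2 * ρ ^ 2 * m + η * n
  cm : ∀ a, a ∉ U1 → ∀ b, b ∉ U2 →
    ρ ^ 2 * m / 4 ≤ (univ.filter fun c => (b, c) ∈ QB ∧ (c, a) ∈ QC).card
  imb : ∀ a, |(d1 ((A \ ins A U1 U2) \ QA) a : ℝ) - d2 ((C \ ins C U3 U1) \ QC) a| ≤ η * n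

/-- BLX (weights on the crossing edges which balance everything). `V` = the three classes, crossing graph
`X` = edges with exactly one end in `U` (a vertex in `U` is called inner, otherwise outer). For a
crossing edge `e` oriented `x → y` along `α → β → γ → α` put `r(e) = 1 + p_x - p_y`. Wanted: for every
vertex (inner out-degree) - (inner in-degree) + `ρ` (out `r`-sum - in `r`-sum over crossing edges) `= 0`,
i.e. `(L p)_v = b_v := - I_v / ρ - (x_out(v) - x_in(v))` where `L` is the Laplacian of the (undirected)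
crossing graph and `I_v = d1 (ins A ..) v - d2 (ins C ..) v` (0 for outer `v`); `∑ b_v = 0`.
SIZE OF `b`: outer `|b_v| ≤ 2 ε m + 2 g n`; inner: `I_v + x_out - x_in = 0` by `bal` and
`|I_v| ≤ 2 ε m`, so `|b_v| ≤ 2 ε m (1/ρ + 1)`. DEGREES in `X`: outer between `1.5 m` and `2 m`, inner between
`1.5 n` and `2 n`. OSCILLATION: let `M+`, `M-` be max and min of `p` over the inner vertices,
`βo = max |b_v|/deg v` over outer, `βi` over inner. For outer `v`: `p_v = (average of p over N(v)) +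
b_v/deg v`, so `M- - βo ≤ p_v ≤ M+ - (1/(2m)) ∑_{u ∈ N(v)} (M+ - p_u) + βo`. At the inner vertex `u1` with
`p = M+`: average over `v ∈ N(u1)`; every inner `u` has at least `0.55 n` common outer neighbours with `u1`
(in a class different from both), so `(0.55 n) ∑_u (M+ - p_u) ≤ (2m)(2n)(βo + βi)`; the same with `M-`; adding,
`3m (M+ - M-) ≤ 15 m (βo + βi)`. Hence all differences `|p_x - p_y| ≤ 7 (βo + βi)`. EXISTENCE: `L + J`
(`J` all ones) is injective: `(L+J)p = 0` gives `∑ p = 0`, `L p = 0`, by the oscillation bound with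
`b = 0` `p` is constant, so `0`; so `(L+J) p = b` is solvable, and then `∑ p = 0`, `L p = b`. Finally
`7 (βo + βi) ≤ 1/100` when `g ≤ ξ/1000·(1/2)`, `ε ≤ ρ/10^5`, `n ≥ n0(ξ)` (`m ≥ ξ n - 1`). -/
def StBLX : Prop :=
  ∀ ξ g ρ : ℝ, 0 < ξ → ξ ≤ 1 / 1000 → 0 < g → g ≤ ξ / 5000 → 0 < ρ → ρ ≤ 1 / 4 →
    ∃ (ε : ℝ) (n0 : ℕ), 0 < ε ∧
    ∀ (α β γ : Type) [Fintype α] [Fintype β] [Fintype γ] [DecidableEq α] [DecidableEq β]
      [DecidableEq γ] (κ : ℝ) (n m : ℕ) (A0 A : Finset (α × β)) (B0 B : Finset (β × γ))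
      (C0 C : Finset (γ × α)) (U1 W1 : Finset α) (U2 W2 : Finset β) (U3 W3 : Finset γ),
      0 ≤ κ → κ ≤ 20 / 97 → n0 ≤ n → Lv κ ε g ξ n m A0 A B0 B C0 C U1 W1 U2 W2 U3 W3 →
      ∃ (rA : α → β → ℝ) (rB : β → γ → ℝ) (rC : γ → α → ℝ),
        (∀ a b, 99 / 100 ≤ rA a b ∧ rA a b ≤ 101 / 100) ∧
        (∀ b c, 99 / 100 ≤ rB b c ∧ rB b c ≤ 101 / 100) ∧
        (∀ c a, 99 / 100 ≤ rC c a ∧ rC c a ≤ 101 / 100) ∧
        (∀ a, (d1 (ins A U1 U2) a : ℝ) + ρ * ∑ b, (if (a, b) ∈ crs A U1 U2 then rA a b else 0)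
          = d2 (ins C U3 U1) a + ρ * ∑ c, (if (c, a) ∈ crs C U3 U1 then rC c a else 0)) ∧
        (∀ b, (d1 (ins B U2 U3) b : ℝ) + ρ * ∑ c, (if (b, c) ∈ crs B U2 U3 then rB b c else 0)
          = d2 (ins A U1 U2) b + ρ * ∑ a, (if (a, b) ∈ crs A U1 U2 then rA a b else 0)) ∧
        ∀ c, (d1 (ins C U3 U1) c : ℝ) + ρ * ∑ a, (if (c, a) ∈ crs C U3 U1 then rC c a else 0)
          = d2 (ins B U2 U3) c + ρ * ∑ b, (if (b, c) ∈ crs B U2 U3 then rB b c else 0)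

/-- RSV (the reservoir). Put each crossing edge `e` of `(A,B,C)` into `Q` independently with probability
`ρ r(e)`, `r` from BLX. Every quantity in `Rsv1` is a sum, over disjoint sets of one or two coordinates,
of products of indicators: BRN with `c = 1`, `∑ v ≤ 2n`, `t = (η/2) n`, `l = η/8`: deviation more than
`(η/2) n` has probability at most `2 exp (-η^2 n/64)`; there are `O(n^2)` events. Means: `szA`: the crossing
edges at an outer `a` number between `(1-κ-ε)m - g n` and `(1-κ+ε) m`. `nbB`: at most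
`(κ+ε) m` values `c` (inside `U` the graphs `B`, `B0` agree), each with probability `≤ 1.01 ρ`. `cdA`: at most
`m` values, `(1.01 ρ)^2`. `cm`: at least `(1 - 2κ - 2ε) m - 2 g n ≥ 0.58 m` values `c`, each with
probability `≥ (0.99 ρ)^2`, minus `η n ≤ ρ^2 ξ n/100`. `inA`: at most `n` values, `1.01 ρ`. `imb`: the mean
of `(d1 ((A \ ins) \ QA) a) - (..)` is `d1 A a - d2 C a - (0) = 0` by BLX and `bal`. -/
def StRSV : Prop :=
  StBRN → StBLX →
  ∀ ξ g ρ η : ℝ, 0 < ξ → ξ ≤ 1 / 1000 → 0 < g → g ≤ ξ / 5000 → 0 < ρ → ρ ≤ 1 / 4 → 0 < η →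
    η ≤ ρ ^ 2 * ξ / 100 → ∃ (ε : ℝ) (n0 : ℕ), 0 < ε ∧
    ∀ (α β γ : Type) [Fintype α] [Fintype β] [Fintype γ] [DecidableEq α] [DecidableEq β]
      [DecidableEq γ] (κ : ℝ) (n m : ℕ) (A0 A : Finset (α × β)) (B0 B : Finset (β × γ))
      (C0 C : Finset (γ × α)) (U1 W1 : Finset α) (U2 W2 : Finset β) (U3 W3 : Finset γ),
      0 ≤ κ → κ ≤ 20 / 97 → n0 ≤ n → Lv κ ε g ξ n m A0 A B0 B C0 C U1 W1 U2 W2 U3 W3 →
      ∃ (QA : Finset (α × β)) (QB : Finset (β × γ)) (QC : Finset (γ × α)),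
        Rsv1 κ ρ η n m A B C QA QB QC U1 U2 W2 U3 W3 ∧
        Rsv1 κ ρ η n m B C A QB QC QA U2 U3 W3 U1 W1 ∧
        Rsv1 κ ρ η n m C A B QC QA QB U3 U1 W1 U2 W2

/-! ## Part F: fractional decompositions of nearly regular, nearly balanced graphs -/

/-- The theorem of project FZ. -/
def StFZ : Prop :=
  ∀ (n : ℕ) (k : ℝ) (A B C : Fin n → Fin n → ℝ) (u v w : Fin n → ℝ),
    (∀ i j, 0 ≤ A i j ∧ A i j ≤ 1) → (∀ i j, 0 ≤ B i j ∧ B i j ≤ 1) →
    (∀ i j, 0 ≤ C i j ∧ C i j ≤ 1) →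
    (∀ r, ∑ c, A r c = n - u r) → (∀ r, ∑ s, C s r = n - u r) → (∀ c, ∑ s, B c s = n - v c) →
    (∀ c, ∑ r, A r c = n - v c) → (∀ s, ∑ r, C s r = n - w s) → (∀ s, ∑ c, B c s = n - w s) →
    (∀ r, u r ≤ k) → (∀ c, v c ≤ k) → (∀ s, w s ≤ k) → 0 < n → 4 * k < n →
    6 * k * ((n : ℝ) ^ 3 - 3 * n * ∑ r, u r + 3 * k * ∑ r, u r) < ((n : ℝ) ^ 2 - ∑ r, u r) ^ 2 →
    ∃ x : Fin n → Fin n → Fin n → ℝ, (∀ r c s, 0 ≤ x r c s) ∧
      (∀ r c s, x r c s ≤ 3 / (n - 2 * k) * (A r c * B c s * C s r)) ∧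
      (∀ r c, ∑ s, x r c s = A r c) ∧ (∀ c s, ∑ r, x r c s = B c s) ∧
      ∀ s r, ∑ c, x r c s = C s r

/-- BLN (small weights which balance a dense graph). For a graph in which every vertex misses at most
`0.22 n` vertices of each other class and with imbalance at most `b n`, there are weights
`0 ≤ w ≤ 40 b` on its edges such that `1 - w` is balanced. PROOF. `N(v)` neighbours in both classes,
`deg v = |N(v)| ≥ 1.56 n`. `(L' p)_v = deg(v) p_v - ∑_{N(v)} p + ∑_all p = deg(v) p_v + ∑_{y ∉ N(v)} p_y`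
has diagonal entry `deg v + 1` and at most `3n - deg v - 1` off-diagonal entries `1`: strictly diagonally
dominant (`det_ne_zero_of_sum_row_lt_diag`), so `L' p = b` is solvable, `b_v` = out-degree minus
in-degree; summing over `v`, `∑ p = 0`; so `deg(v) p_v - ∑_{N(v)} p = b_v`; at the vertex with `|p_v|` maximal,
`(2 deg v - 3n) |p_v| ≤ |b_v|`, so `|p| ≤ b n/(0.12 n) ≤ 9 b =: s`. For an edge `x → y` (orientation
`α → β → γ → α`) put `w = t + (1 - t)(p_x - p_y)`, `t = 2 s ≤ 1` (if `18 b > 1` there is nothing to do,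
hypothesis `b ≤ 1/40`): `0 ≤ w ≤ 4 s ≤ 40 b`, and out-sum minus in-sum of `w` at `v` is
`t b_v + (1-t) (L p)_v = b_v`. -/
def StBLN : Prop :=
  ∀ (α β γ : Type) [Fintype α] [Fintype β] [Fintype γ] [DecidableEq α] [DecidableEq β]
    [DecidableEq γ] (n : ℕ), 0 < n → Fintype.card α = n → Fintype.card β = n →
    Fintype.card γ = n → ∀ (A : Finset (α × β)) (B : Finset (β × γ)) (C : Finset (γ × α)) (b : ℝ),
    Near A B C univ univ univ univ univ univ (-1) (22 / 100 * n) → 0 ≤ b → b ≤ 1 / 40 →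
    Imb A B C (b * n) →
    ∃ (wA : α → β → ℝ) (wB : β → γ → ℝ) (wC : γ → α → ℝ),
      (∀ a b', 0 ≤ wA a b' ∧ wA a b' ≤ 40 * b) ∧ (∀ b' c, 0 ≤ wB b' c ∧ wB b' c ≤ 40 * b) ∧
      (∀ c a, 0 ≤ wC c a ∧ wC c a ≤ 40 * b) ∧
      (∀ a, ∑ b', (if (a, b') ∈ A then 1 - wA a b' else 0)
        = ∑ c, (if (c, a) ∈ C then 1 - wC c a else 0)) ∧
      (∀ b', ∑ c, (if (b', c) ∈ B then 1 - wB b' c else 0)
        = ∑ a, (if (a, b') ∈ A then 1 - wA a b' else 0)) ∧
      ∀ c, ∑ a, (if (c, a) ∈ C then 1 - wC c a else 0)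
        = ∑ b', (if (b', c) ∈ B then 1 - wB b' c else 0)

/-- FRN. Weights `g = 1 - w` on the edges, `0` elsewhere, `w` from BLN; transport FZ to the types
`α, β, γ` by equivalences with `Fin n`. `k = (κ + ε + 40 b) n`, the defects `u = n - ∑ g` lie in
`[(κ-ε) n, k]`, `∑ u ≥ (κ - ε) n^2`. The condition of FZ, divided by `n^4`, for `h = ∑ u/n^2 ∈
[κ - ε, k/n]` and `κ' = k/n`: `6 κ' (1 - 3h + 3 κ' h) < (1-h)^2`; for `ε = b = 0` it is
`18 κ^3 - 19 κ^2 + 8 κ < 1`, true for `κ ≤ 20/97` with margin `4·10^{-4}` (the left side is increasing), so it holds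
for small `ε`, `b` (the difference of the two sides is Lipschitz with constant `≤ 100`). `3/(n-2k) ≤ 6/n`. -/
def StFRN : Prop :=
  StFZ → StBLN → ∃ ε : ℝ, 0 < ε ∧ ε ≤ 1 / 1000 ∧
    ∀ (α β γ : Type) [Fintype α] [Fintype β] [Fintype γ] [DecidableEq α] [DecidableEq β]
    [DecidableEq γ] (n : ℕ), 0 < n → Fintype.card α = n → Fintype.card β = n →
    Fintype.card γ = n → ∀ (A : Finset (α × β)) (B : Finset (β × γ)) (C : Finset (γ × α))
    (κ b : ℝ), 0 ≤ κ → κ ≤ 20 / 97 → 0 ≤ b → b ≤ ε →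
    Near A B C univ univ univ univ univ univ ((κ - ε) * n) ((κ + ε) * n) → Imb A B C (b * n) →
    ∃ x : α → β → γ → ℝ, (∀ a b' c, 0 ≤ x a b' c) ∧ (∀ a b' c, x a b' c ≤ 6 / n) ∧
      (∀ a b' c, x a b' c ≠ 0 → (a, b') ∈ A ∧ (b', c) ∈ B ∧ (c, a) ∈ C) ∧
      (∀ a b', (a, b') ∈ A → 1 - 40 * b ≤ ∑ c, x a b' c) ∧ (∀ a b', ∑ c, x a b' c ≤ 1) ∧
      (∀ b' c, (b', c) ∈ B → 1 - 40 * b ≤ ∑ a, x a b' c) ∧ (∀ b' c, ∑ a, x a b' c ≤ 1) ∧
      (∀ c a, (c, a) ∈ C → 1 - 40 * b ≤ ∑ b', x a b' c) ∧ ∀ c a, ∑ b', x a b' c ≤ 1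

/-- The conclusion of APX as a predicate in `ε`. -/
def APXP (ε : ℝ) : Prop :=
  ∀ g : ℝ, 0 < g → ∃ (b0 : ℝ) (n0 : ℕ), 0 < b0 ∧
    ∀ (α β γ : Type) [Fintype α] [Fintype β] [Fintype γ] [DecidableEq α] [DecidableEq β]
    [DecidableEq γ] (n : ℕ), n0 ≤ n → Fintype.card α = n → Fintype.card β = n →
    Fintype.card γ = n → ∀ (A : Finset (α × β)) (B : Finset (β × γ)) (C : Finset (γ × α))
    (κ : ℝ), 0 ≤ κ → κ ≤ 20 / 97 →
    Near A B C univ univ univ univ univ univ ((κ - ε) * n) ((κ + ε) * n) → Imb A B C (b0 * n) →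
    ∃ P, Pack A B C P ∧ Sm (A \ P.image eA) (g * n) ∧ Sm (B \ P.image eB) (g * n) ∧
      Sm (C \ P.image eC) (g * n)

/-- APX: FRN and NIB with `Λ = 6` and `40 b0 ≤ δ`, `b0 ≤ ε`. -/
def StAPX : Prop := StNIB → StFZ → StBLN → StFRN → ∃ ε : ℝ, 0 < ε ∧ ε ≤ 1 / 1000 ∧ APXP ε

/-! ## Part M: matchings -/

/-- LEC (list edge colouring, greedy). -/
def StLEC : Prop :=
  ∀ (X Y Z : Type) [Fintype X] [Fintype Y] [Fintype Z] [DecidableEq X] [DecidableEq Y]
    [DecidableEq Z] [Nonempty Z] (O : Finset (X × Y)) (L : X × Y → Finset Z),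
    (∀ e ∈ O, d1 O e.1 + d2 O e.2 ≤ (L e).card) →
    ∃ f : X × Y → Z, (∀ e ∈ O, f e ∈ L e) ∧
      ∀ e ∈ O, ∀ e' ∈ O, e ≠ e' → (e.1 = e'.1 ∨ e.2 = e'.2) → f e ≠ f e'

/-- MAT (edge-disjoint perfect matchings in many overlapping dense bipartite graphs, derandomised).
Process the indices one after the other. For the index `i`, after the matchings of the previous indices
have been chosen (set of used edges `D`), consider `H ∩ (P i × Q i) \ D`. INVARIANT: every `x ∈ P i'`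
(`i'` not yet processed) has at most `b` used edges towards `Q i'`, and symmetrically. So the graph has minimum
degree at least `|P i| - t - b`; removing one perfect matching after the other, as long as fewer than `R` have
been removed the minimum degree is at least `|P i| - t - b - R ≥ |P i|/2`, so Hall's condition holds
(`|P i| = |Q i|`) and there is a perfect matching: we get `R` pairwise edge-disjoint perfect
matchings `N_1, .., N_R`. POTENTIAL: for `i'` not processed and `x ∈ P i'` let `B(i',x)` = number of used edges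
`(x,y)`, `y ∈ Q i'`, and `F(i',x)` = number of unprocessed indices `j ≠ i'` with `x ∈ P j`;
`Φ = ∑_{i'} (∑_{x ∈ P i'} 2^B(i',x) (1+μ/R)^F(i',x) + ∑_{y ∈ Q i'} ...)`. At the step `i` choose the `N_s` for
which the new potential is least: for fixed `(i',x)` with `x ∈ P i ∩ P i'` the edges of
`N_1, .., N_R` from `x` to `Q i ∩ Q i'` are distinct, at most `μ` of the `N_s` have one, so the average of
`2^(increment)` is at most `1 + μ/R`: the potential does not increase on average. Initially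
`Φ ≤ |ι| (|X|+|Y|) (1+μ/R)^D < 2^b`, so `2^B < 2^b` always. -/
def StMAT : Prop :=
  ∀ (X Y ι : Type) [Fintype X] [Fintype Y] [Fintype ι] [DecidableEq X] [DecidableEq Y]
    [DecidableEq ι] (H : Finset (X × Y)) (P : ι → Finset X) (Q : ι → Finset Y)
    (t b R D μ : ℕ), 1 ≤ R → (∀ i, (P i).card = (Q i).card) →
    (∀ i, 2 * (t + b + R) ≤ (P i).card) →
    (∀ i, ∀ x ∈ P i, ((Q i).filter fun y => (x, y) ∉ H).card ≤ t) →
    (∀ i, ∀ y ∈ Q i, ((P i).filter fun x => (x, y) ∉ H).card ≤ t) →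
    (∀ i j, i ≠ j → (P i ∩ P j).card ≤ μ) → (∀ i j, i ≠ j → (Q i ∩ Q j).card ≤ μ) →
    (∀ x, (univ.filter fun i => x ∈ P i).card ≤ D) →
    (∀ y, (univ.filter fun i => y ∈ Q i).card ≤ D) →
    (Fintype.card ι : ℝ) * (Fintype.card X + Fintype.card Y) * (1 + (μ : ℝ) / R) ^ D < 2 ^ b →
    ∃ M : ι → X → Y, (∀ i, Set.BijOn (M i) (P i) (Q i)) ∧ (∀ i, ∀ x ∈ P i, (x, M i x) ∈ H) ∧
      ∀ i j, i ≠ j → ∀ x ∈ P i, x ∈ P j → M i x ≠ M j x

/-! ## Part C: cover down -/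

/-- The cover down statement for given constants. -/
def CDP (ξ g ε : ℝ) (n0 : ℕ) : Prop :=
  ∀ (α β γ : Type) [Fintype α] [Fintype β] [Fintype γ] [DecidableEq α] [DecidableEq β]
    [DecidableEq γ] (κ : ℝ) (n m : ℕ) (A0 A : Finset (α × β)) (B0 B : Finset (β × γ))
    (C0 C : Finset (γ × α)) (U1 W1 : Finset α) (U2 W2 : Finset β) (U3 W3 : Finset γ),
    0 ≤ κ → κ ≤ 20 / 97 → n0 ≤ n → Lv κ ε g ξ n m A0 A B0 B C0 C U1 W1 U2 W2 U3 W3 →
    ∃ P, Pack A B C P ∧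
      A \ P.image eA ⊆ ins A U1 U2 ∧ B \ P.image eB ⊆ ins B U2 U3 ∧ C \ P.image eC ⊆ ins C U3 U1 ∧
      ins (P.image eA) W1 W2 = ∅ ∧ ins (P.image eB) W2 W3 = ∅ ∧ ins (P.image eC) W3 W1 = ∅ ∧
      Sm (ins (P.image eA) U1 U2) (g * m) ∧ Sm (ins (P.image eB) U2 U3) (g * m) ∧
      Sm (ins (P.image eC) U3 U1) (g * m)

/-- CD (helper93). -/
def StCD : Prop :=
  StBRN → StBLX → StRSV → StLEC → StMAT → (∃ ε : ℝ, 0 < ε ∧ ε ≤ 1 / 1000 ∧ APXP ε) →
    ∃ (ξ g ε : ℝ) (n0 : ℕ), 0 < ξ ∧ ξ ≤ 1 / 1000 ∧ 0 < g ∧ 0 < ε ∧ CDP ξ g ε n0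

/-! ## Part A: absorbers -/

/-- ABS (an absorber for the balanced graph `L`). Let `e = |LA| = |LB| = |LC|` (balanced). By local balance
there are bijections `πR : LA ≃ LC` (edges with the same row), `πC : LB ≃ LA` (same column),
`πS : LC ≃ LB` (same symbol). TARGET GRAPH `J`: a new row `x0` and for every `i ∈ LA` a new column `y i`
and a new symbol `z' i`, triangles `(x0, y i, z' i)`. Correspondence: the edge `i = (r,c) ∈ LA` ↔ `(x0, y i)`,
`j ∈ LB` ↔ `(y i, z' i)` with `i = πC j`, `l ∈ LC` ↔ `(z' i, x0)` with `i = πC (πS l)`. TRANSFORMER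
`T` between `L` and `J`: for every `i = (r,c) ∈ LA` (partner `(r',c') = (x0, y i)`) a new symbol `z i` joined
to `r, c, r', c'`; for every `j = (c,s) ∈ LB` (partner `(c',s')`) a new row `ρ j` joined to
`c, s, c', s'`; for every `l = (s,r) ∈ LC` (partner `(s',r')`) a new column `κ l` joined to `s, r, s', r'`;
and for every pair of edges of `L` paired at a vertex `v` (`v'` = partner vertex in `J`) a gadget: at a row
`v`, pair `i`, `l = πR i`, new column `c1` and new symbol `s1`, edges `v c1, v s1, v' c1, v' s1, c1 s1,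
c1 (z i), s1 (κ l)`. The gadget together with `{v (z i), v (κ l)}` decomposes: `(v, c1, z i)`, `(v, κ l, s1)`,
`(v', c1, s1)`; and together with `{v' (z i), v' (κ l)}`: `(v', c1, z i)`, `(v', κ l, s1)`, `(v, c1, s1)`.
The same at columns (pair `j`, `i = πC j`; new symbol and new row) and symbols (pair `l`, `j = πS l`;
new row and new column), by rotation. So `T ∪ L` = triangles `(r,c,z i)`, `(ρ j,c,s)`, `(r,κ l,s)` and all
gadgets with the primed pairs; `T ∪ J` symmetrically. ABSORBER `X = T ∪ J`: `X ∪ L = (T ∪ L) ∪ J`, `X = T ∪ J`.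
EMBEDDING in the graph, where every vertex misses at most `d` vertices of each class: choose the new vertices
in this order, all labels distinct and outside `F`: `x0`; `y i` (1 earlier neighbour); `z' i` (2); `z i`,
`ρ j`, `κ l` (4 each); gadgets: first new vertex (3: `v, v'`, one of `z, ρ, κ`), second (4). Each time at most
`4 d` labels are excluded by adjacency, at most `|F| + 11 e + 1` by disjointness. (SDR lemma: if each of
finitely many indices `i` has a candidate set with more than `|G| + |ι|` elements, `G` forbidden,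
there is an injective choice outside `G`.) -/
def StABS : Prop :=
  ∀ (n d : ℕ) (A B C LA LB LC : Finset (Fin n × Fin n)) (F : Finset (Fin n)),
    (∀ i, m1 A univ i ≤ d ∧ m2 A univ i ≤ d ∧ m1 B univ i ≤ d ∧ m2 B univ i ≤ d ∧
      m1 C univ i ≤ d ∧ m2 C univ i ≤ d) →
    Bal LA LB LC → (∀ e ∈ LA, e.1 ∈ F ∧ e.2 ∈ F) → (∀ e ∈ LB, e.1 ∈ F ∧ e.2 ∈ F) →
    (∀ e ∈ LC, e.1 ∈ F ∧ e.2 ∈ F) → 4 * d + F.card + 12 * LA.card + 2 ≤ n →
    ∃ (XA XB XC : Finset (Fin n × Fin n)) (N : Finset (Fin n)),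
      XA ⊆ A ∧ XB ⊆ B ∧ XC ⊆ C ∧ Disjoint N F ∧ N.card ≤ 11 * LA.card + 1 ∧
      (∀ e ∈ XA, (e.1 ∈ N ∨ e.2 ∈ N) ∧ e.1 ∈ N ∪ F ∧ e.2 ∈ N ∪ F) ∧
      (∀ e ∈ XB, (e.1 ∈ N ∨ e.2 ∈ N) ∧ e.1 ∈ N ∪ F ∧ e.2 ∈ N ∪ F) ∧
      (∀ e ∈ XC, (e.1 ∈ N ∨ e.2 ∈ N) ∧ e.1 ∈ N ∪ F ∧ e.2 ∈ N ∪ F) ∧
      XA.card + XB.card + XC.card ≤ 36 * LA.card ∧
      Dec XA XB XC ∧ Dec (XA ∪ LA) (XB ∪ LB) (XC ∪ LC)

/-! ## Part V: vortex, iteration, final assembly -/

/-- A vortex of `ℓ + 1` levels in the graph `(A,B,C)`. -/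
structure Chain {n : ℕ} (A B C : Finset (Fin n × Fin n)) (κ ε ξ : ℝ) (n0 ℓ : ℕ)
    (V : ℕ → Fin 3 → Finset (Fin n)) : Prop where
  zero : ∀ j, V 0 j = univ
  sub : ∀ i < ℓ, ∀ j, V (i + 1) j ⊆ V i j
  card : ∀ i < ℓ, ∀ j, (V (i + 1) j).card = ⌊ξ * (V i 0).card⌋₊
  big : ∀ i ≤ ℓ, ∀ j, n0 ≤ (V i j).card
  near : ∀ i ≤ ℓ, Near A B C (V i 0) (V i 1) (V i 2) (V i 0) (V i 1) (V i 2)
    ((κ - ε) * (V i 0).card) ((κ + ε) * (V i 0).card)
  next : ∀ i < ℓ, Near A B C (V i 0) (V i 1) (V i 2) (V (i + 1) 0) (V (i + 1) 1) (V (i + 1) 2)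
    ((κ - ε) * (V (i + 1) 0).card) ((κ + ε) * (V (i + 1) 0).card)

/-- VOR. Invariant: at a level of size `s` all the non-neighbour densities are within
`ε (N0/s)^(1/4)` of `κ`. From a level `V` of size `s` to the next one of size `m = ⌊ξ s⌋`: SUB on each of
the three classes (ground set `V j`; sets `F` = non-neighbourhoods in `V j` of the `2 s` vertices of the
other two classes of `V`), new error `≤ ε (N0/s)^(1/4) + m^(-1/3) ≤ ε (N0/m)^(1/4)` because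
`(N0/m)^(1/4) - (N0/s)^(1/4) ≥ (N0/m)^(1/4) (1 - ξ^(1/4)) ` and `ε N0^(1/4) (1 - ξ^(1/4)) ≥ 1 ≥ m^(-1/12)` for `N0`
large. Stop when the size is `< M := ⌈(n0 + 1)/ξ⌉ + 1`; all the sizes are `≥ n0 ≥ N0`. -/
def StVOR : Prop :=
  StSUB → ∀ ξ ε : ℝ, 0 < ξ → ξ ≤ 1 / 1000 → 0 < ε → ∃ N0 : ℕ, ∀ n0 : ℕ, N0 ≤ n0 → ∃ M : ℕ,
    ∀ (n k : ℕ) (A B C : Finset (Fin n × Fin n)), n0 ≤ n →
      (∀ i, m1 A univ i = k ∧ m2 A univ i = k ∧ m1 B univ i = k ∧ m2 B univ i = k ∧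
        m1 C univ i = k ∧ m2 C univ i = k) →
      ∃ (ℓ : ℕ) (V : ℕ → Fin 3 → Finset (Fin n)), Chain A B C ((k : ℝ) / n) ε ξ n0 ℓ V ∧
        ∀ j, (V ℓ j).card ≤ M

/-- ITR. Induction on the number of levels, for the graph induced on `V i`: the current graph `G_i ⊆
ins (A,B,C) (V i)` is balanced, agrees with `(A,B,C)` inside `V (i+1)`, and `(ins A (V i)) \ G_i` has degrees at most
`g |V i|`. Apply CDP to the subtypes `V i 0`, `V i 1`, `V i 2` (`U = V (i+1)`, `W = V (i+2)` or empty if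
`i + 1 = ℓ`; `ξ |V (i+1)| ≥ |V (i+2)|`): `G_{i+1}` = the uncovered edges, all inside `V (i+1)`; what was
removed from `ins A (V (i+1))` has degrees `≤ g |V (i+1)|` and does not touch the edges inside
`V (i+2)`. The union of all the packings is a packing. -/
def StITR : Prop :=
  ∀ (ξ g ε : ℝ) (n0 : ℕ), 0 < ξ → ξ ≤ 1 / 1000 → 0 < g → 0 < ε → CDP ξ g ε n0 →
    ∀ (n ℓ : ℕ) (κ : ℝ) (A B C A' B' C' : Finset (Fin n × Fin n))
      (V : ℕ → Fin 3 → Finset (Fin n)), 1 ≤ ℓ → 0 ≤ κ → κ ≤ 20 / 97 → Chain A B C κ ε ξ n0 ℓ V →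
      A' ⊆ A → B' ⊆ B → C' ⊆ C → Bal A' B' C' → Sm (A \ A') (g * n) → Sm (B \ B') (g * n) →
      Sm (C \ C') (g * n) → ins A' (V 1 0) (V 1 1) = ins A (V 1 0) (V 1 1) →
      ins B' (V 1 1) (V 1 2) = ins B (V 1 1) (V 1 2) →
      ins C' (V 1 2) (V 1 0) = ins C (V 1 2) (V 1 0) →
      ∃ P, Pack A' B' C' P ∧ A' \ P.image eA ⊆ ins A' (V ℓ 0) (V ℓ 1) ∧
        B' \ P.image eB ⊆ ins B' (V ℓ 1) (V ℓ 2) ∧ C' \ P.image eC ⊆ ins C' (V ℓ 2) (V ℓ 0)

/-- MAIN. -/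
def MAINP : Prop :=
  ∃ n0 : ℕ, ∀ n k : ℕ, n0 ≤ n → 97 * k ≤ 20 * n → ∀ A B C : Finset (Fin n × Fin n),
    (∀ i, m1 A univ i = k ∧ m2 A univ i = k ∧ m1 B univ i = k ∧ m2 B univ i = k ∧
      m1 C univ i = k ∧ m2 C univ i = k) → Dec A B C

/-- FIN. Constants `ξ, g, ε, n1` from CD, `N0` from VOR, `n0' = max n1 N0`, `M` from VOR. Take a vortex
`V 0 ⊇ .. ⊇ V ℓ`, `|V ℓ| ≤ M`, `ℓ ≥ 1` as `n > M`. `F0 = V 1 0 ∪ V 1 1 ∪ V 1 2` (labels), at most
`3 ξ n + 3` of them. For every balanced `L` with edges inside `V ℓ` (at most `2^(3 M^2)` of them, `|LA| ≤ M^2`)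
one after the other ABS with `d = k`, `F` = `F0` and all the labels used so far (constant many):
`4k + |F| + 12 M^2 + 2 ≤ n` since `4k ≤ 80/97 n`. The absorbers are edge-disjoint and have no edge
inside `V 1` (each edge has an end in its own `N`, the `N`'s are disjoint from each other and from
`F0`). `A' = A \ (all absorbers)`: balanced (a decomposable graph is balanced), the degrees of
`A \ A'` are at most the total number of edges of the absorbers, `≤ 2^(3 M^2) * 36 M^2 ≤ g n`. ITR: packing `P` of `(A',B',C')` leaving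
`L = (A' \ ..)` inside `V ℓ`, balanced. Then `(A,B,C)` is the disjoint union of the edges of
`P`, of `X_L ∪ L` and of the `X_{L'}`, `L' ≠ L`, all decomposable. -/
def StFIN : Prop :=
  (∃ (ξ g ε : ℝ) (n0 : ℕ), 0 < ξ ∧ ξ ≤ 1 / 1000 ∧ 0 < g ∧ 0 < ε ∧ CDP ξ g ε n0) → StABS → StSUB →
    StVOR → StITR → MAINP

end Pool.Agent.Helper93.IA
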